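import Pool.Agent.helper27.UF.Blowup

/-!
# The blow-up theorem: averaging
-/

set_option linter.unusedSectionVars false
set_option linter.unusedDecidableInType false
set_option linter.unusedFintypeInType false

namespace Pool.Agent.helper27.UF

open Finset

variable {ι K : Type*} [Fintype ι] [DecidableEq ι] [Field K] [DecidableEq K] [Fintype K]

theorem blowup (k : ℕ) (hk : 1 ≤ k) (F : Finset (Finset ι)) (hF : ∀ A ∈ F, A.card = 3 * k)
    (hP : PairFree F) (t : ι → K) (ht : Function.Injective t) :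
    ∃ H : Finset (Finset (ι × (K × K))), (∀ e ∈ H, e.card = 3 * k) ∧ PairFree H ∧
      F.card * (Fintype.card K) ^ (4 * k + 1) ≤ Fintype.card K * H.card +
        (F.card * (2 ^ Fintype.card ι * 2 + (2 ^ Fintype.card ι +
          F.card * (2 ^ Fintype.card ι * 2)))) * (Fintype.card K) ^ (4 * k) := by
  classical
  set q := Fintype.card K with hq
  have hq0 : 0 < q := Fintype.card_pos
  set m := Fintype.card ι with hm
  let E := Fin (2 * k) → K
  have hE : Fintype.card E = q ^ (2 * k) := by simp [E, hq]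
  set N := Fintype.card (Om ι E) with hN
  -- sums
  have hcode : ∀ A ∈ F, ∑ ω : Om ι E, (code t ω A).card = q ^ (4 * k) * N := by
    intro A hA
    have h := sum_code (E := E) t A
    rw [hE, hF A hA] at h
    have h' : (∑ ω : Om ι E, (code t ω A).card) * q ^ (2 * k)
        = (q ^ (4 * k) * N) * q ^ (2 * k) := by
      rw [h, ← hq, ← hN]
      ring
    exact Nat.eq_of_mul_eq_mul_right (pow_pos hq0 _) h'
  have h0 : ∀ A ∈ F, ∀ R : Finset ι, R.card ≤ k →
      ∑ ω : Om ι E, (T0 t ω A R).card ≤ q ^ (4 * k) * N := by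
    intro A hA R hR
    have h := sum_T0 (E := E) t A R
    rw [hE, hF A hA, ← hq, ← hN] at h
    have h' : (∑ ω : Om ι E, (T0 t ω A R).card) * q ^ (4 * k)
        ≤ (q ^ (4 * k) * N) * q ^ (4 * k) := by
      calc (∑ ω : Om ι E, (T0 t ω A R).card) * q ^ (4 * k)
          = (∑ ω : Om ι E, (T0 t ω A R).card) * (q ^ (2 * k)) ^ 2 := by ring
        _ ≤ q ^ (2 * (3 * k) + 2 * R.card) * N := h
        _ ≤ q ^ (8 * k) * N := Nat.mul_le_mul_right _ (Nat.pow_le_pow_right hq0 (by omega))
        _ = (q ^ (4 * k) * N) * q ^ (4 * k) := by ring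
    exact Nat.le_of_mul_le_mul_right h' (pow_pos hq0 _)
  have h1 : ∀ A ∈ F, ∀ R : Finset ι, R.card ≤ 2 * k - 1 →
      ∑ ω : Om ι E, q * (T1 t ω A R).card ≤ q ^ (4 * k) * N := by
    intro A hA R hR
    have h := sum_T1 (E := E) t A R
    rw [hE, hF A hA, ← hq, ← hN] at h
    have h' : (∑ ω : Om ι E, q * (T1 t ω A R).card) * q ^ (4 * k)
        ≤ (q ^ (4 * k) * N) * q ^ (4 * k) := by
      calc (∑ ω : Om ι E, q * (T1 t ω A R).card) * q ^ (4 * k)
          = q * ((∑ ω : Om ι E, (T1 t ω A R).card) * (q ^ (2 * k)) ^ 2) := by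
            rw [← Finset.mul_sum]; ring
        _ ≤ q * (q ^ (2 * (3 * k) + R.card) * N) := Nat.mul_le_mul_left _ h
        _ = q ^ (2 * (3 * k) + R.card + 1) * N := by ring
        _ ≤ q ^ (8 * k) * N := Nat.mul_le_mul_right _ (Nat.pow_le_pow_right hq0 (by omega))
        _ = (q ^ (4 * k) * N) * q ^ (4 * k) := by ring
    exact Nat.le_of_mul_le_mul_right h' (pow_pos hq0 _)
  have h2 : ∀ A ∈ F, ∀ B ∈ F, ∀ S : Finset ι, S ⊆ B →
      ∑ ω : Om ι E, (T2 t ω A B S).card ≤ q ^ (4 * k) * N := by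
    intro A hA B hB S hS
    have h := sum_T2 (E := E) t ht A B S
    have hc : (B \ S).card + S.card = B.card := Finset.card_sdiff_add_card_eq_card hS
    have hBk := hF B hB
    have hexp : 2 * A.card + (2 * S.card + 2 * (B \ S).card) = 12 * k := by
      rw [hF A hA]; omega
    rw [hE, hexp, ← hq, ← hN] at h
    have h' : (∑ ω : Om ι E, (T2 t ω A B S).card) * q ^ (8 * k)
        ≤ (q ^ (4 * k) * N) * q ^ (8 * k) := by
      calc (∑ ω : Om ι E, (T2 t ω A B S).card) * q ^ (8 * k)
          = (∑ ω : Om ι E, (T2 t ω A B S).card) * (q ^ (2 * k)) ^ 4 := by ring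
        _ ≤ q ^ (12 * k) * N := h
        _ = (q ^ (4 * k) * N) * q ^ (8 * k) := by ring
    exact Nat.le_of_mul_le_mul_right h' (pow_pos hq0 _)
  have hpow : ∀ A : Finset ι, A.powerset.card ≤ 2 ^ m := by
    intro A
    rw [Finset.card_powerset]
    exact Nat.pow_le_pow_right (by norm_num) (Finset.card_le_univ A)
  have htot : ∑ ω : Om ι E, tot t k F ω ≤
      (F.card * (2 ^ m * 2 + (2 ^ m + F.card * (2 ^ m * 2)))) * (q ^ (4 * k) * N) := by
    simp only [tot]
    rw [Finset.sum_comm]
    have hA : ∀ A ∈ F, ∑ ω : Om ι E,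
        ((∑ R ∈ A.powerset.filter (fun R => R.card ≤ k), 2 * (T0 t ω A R).card) +
        ((∑ R ∈ A.powerset.filter (fun R => R.card ≤ 2 * k - 1),
          Fintype.card K * (T1 t ω A R).card) +
        (∑ B ∈ F, ∑ S ∈ (A ∩ B).powerset, 2 * (T2 t ω A B S).card))) ≤
        (2 ^ m * 2 + (2 ^ m + F.card * (2 ^ m * 2))) * (q ^ (4 * k) * N) := by
      intro A hA
      rw [Finset.sum_add_distrib, Finset.sum_add_distrib, Nat.add_mul, Nat.add_mul]
      refine Nat.add_le_add ?_ (Nat.add_le_add ?_ ?_)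
      · rw [Finset.sum_comm]
        calc ∑ R ∈ A.powerset.filter (fun R => R.card ≤ k), ∑ ω : Om ι E, 2 * (T0 t ω A R).card
            ≤ ∑ R ∈ A.powerset.filter (fun R => R.card ≤ k), 2 * (q ^ (4 * k) * N) := by
              refine Finset.sum_le_sum fun R hR => ?_
              rw [← Finset.mul_sum]
              exact Nat.mul_le_mul_left _ (h0 A hA R (mem_filter.mp hR).2)
          _ = (A.powerset.filter (fun R => R.card ≤ k)).card * (2 * (q ^ (4 * k) * N)) := by
              rw [Finset.sum_const, smul_eq_mul]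
          _ ≤ 2 ^ m * (2 * (q ^ (4 * k) * N)) :=
              Nat.mul_le_mul_right _ ((Finset.card_filter_le _ _).trans (hpow A))
          _ = 2 ^ m * 2 * (q ^ (4 * k) * N) := by ring
      · rw [Finset.sum_comm]
        calc ∑ R ∈ A.powerset.filter (fun R => R.card ≤ 2 * k - 1),
              ∑ ω : Om ι E, Fintype.card K * (T1 t ω A R).card
            ≤ ∑ R ∈ A.powerset.filter (fun R => R.card ≤ 2 * k - 1), (q ^ (4 * k) * N) := by
              refine Finset.sum_le_sum fun R hR => ?_
              exact h1 A hA R (mem_filter.mp hR).2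
          _ = (A.powerset.filter (fun R => R.card ≤ 2 * k - 1)).card * (q ^ (4 * k) * N) := by
              rw [Finset.sum_const, smul_eq_mul]
          _ ≤ 2 ^ m * (q ^ (4 * k) * N) :=
              Nat.mul_le_mul_right _ ((Finset.card_filter_le _ _).trans (hpow A))
      · rw [Finset.sum_comm]
        calc ∑ B ∈ F, ∑ ω : Om ι E, ∑ S ∈ (A ∩ B).powerset, 2 * (T2 t ω A B S).card
            ≤ ∑ B ∈ F, 2 ^ m * 2 * (q ^ (4 * k) * N) := by
              refine Finset.sum_le_sum fun B hB => ?_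
              rw [Finset.sum_comm]
              calc ∑ S ∈ (A ∩ B).powerset, ∑ ω : Om ι E, 2 * (T2 t ω A B S).card
                  ≤ ∑ S ∈ (A ∩ B).powerset, 2 * (q ^ (4 * k) * N) := by
                    refine Finset.sum_le_sum fun S hS => ?_
                    rw [← Finset.mul_sum]
                    exact Nat.mul_le_mul_left _ (h2 A hA B hB S
                      ((mem_powerset.mp hS).trans inter_subset_right))
                _ = (A ∩ B).powerset.card * (2 * (q ^ (4 * k) * N)) := by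
                    rw [Finset.sum_const, smul_eq_mul]
                _ ≤ 2 ^ m * (2 * (q ^ (4 * k) * N)) := Nat.mul_le_mul_right _ (hpow _)
                _ = 2 ^ m * 2 * (q ^ (4 * k) * N) := by ring
          _ = F.card * (2 ^ m * 2) * (q ^ (4 * k) * N) := by
              rw [Finset.sum_const, smul_eq_mul]; ring
    calc ∑ A ∈ F, ∑ ω : Om ι E,
        ((∑ R ∈ A.powerset.filter (fun R => R.card ≤ k), 2 * (T0 t ω A R).card) +
        ((∑ R ∈ A.powerset.filter (fun R => R.card ≤ 2 * k - 1),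
          Fintype.card K * (T1 t ω A R).card) +
        (∑ B ∈ F, ∑ S ∈ (A ∩ B).powerset, 2 * (T2 t ω A B S).card)))
        ≤ ∑ A ∈ F, (2 ^ m * 2 + (2 ^ m + F.card * (2 ^ m * 2))) * (q ^ (4 * k) * N) :=
          Finset.sum_le_sum hA
      _ = _ := by rw [Finset.sum_const, smul_eq_mul]; ring
  set C := F.card * (2 ^ m * 2 + (2 ^ m + F.card * (2 ^ m * 2))) with hC
  have hsum : ∑ _ω : Om ι E, F.card * q ^ (4 * k + 1) ≤
      ∑ ω : Om ι E, (q * (HH t k F ω).card + C * q ^ (4 * k)) := by
    calc ∑ _ω : Om ι E, F.card * q ^ (4 * k + 1)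
        = N * (F.card * q ^ (4 * k + 1)) := by
          rw [Finset.sum_const, smul_eq_mul, Finset.card_univ]
      _ = q * ∑ A ∈ F, (q ^ (4 * k) * N) := by
          rw [Finset.sum_const, smul_eq_mul]; ring
      _ = q * ∑ A ∈ F, ∑ ω : Om ι E, (code t ω A).card := by
          rw [Finset.sum_congr rfl hcode]
      _ = ∑ ω : Om ι E, q * ∑ A ∈ F, (code t ω A).card := by
          rw [Finset.sum_comm, Finset.mul_sum]
      _ ≤ ∑ ω : Om ι E, (q * (HH t k F ω).card + tot t k F ω) :=
          Finset.sum_le_sum fun ω _ => code_le t k F ω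
      _ = ∑ ω : Om ι E, q * (HH t k F ω).card + ∑ ω : Om ι E, tot t k F ω :=
          Finset.sum_add_distrib
      _ ≤ ∑ ω : Om ι E, q * (HH t k F ω).card + C * (q ^ (4 * k) * N) :=
          Nat.add_le_add_left htot _
      _ = ∑ ω : Om ι E, (q * (HH t k F ω).card + C * q ^ (4 * k)) := by
          rw [Finset.sum_add_distrib, Finset.sum_const, smul_eq_mul, Finset.card_univ]
          ring
  obtain ⟨ω, -, hω⟩ := Finset.exists_le_of_sum_le (Finset.univ_nonempty) hsum
  refine ⟨HH t k F ω, ?_, pairFree_HH t k F hF hP ω, hω⟩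
  intro e he
  simp only [HH, mem_biUnion, mem_image] at he
  obtain ⟨A, hA, c, _, rfl⟩ := he
  rw [card_edge, hF A hA]

end Pool.Agent.helper27.UF
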