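import Pool.Agent.helper27.UF.Param

/-!
# First moments of the numbers of conflicts
-/

set_option linter.unusedSectionVars false
set_option linter.unusedDecidableInType false
set_option linter.unusedFintypeInType false

namespace Pool.Agent.helper27.UF

open Finset

variable {ι K : Type*} [Fintype ι] [DecidableEq ι] [Field K] [DecidableEq K] [Fintype K]
variable {E : Type*} [AddCommGroup E] [Module K E] [Fintype E] [DecidableEq E]

/-- Words supported on `A`. -/
def W (K : Type*) [Field K] [Fintype K] [DecidableEq K] (A : Finset ι) : Finset (ι → K × K) :=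
  Fintype.piFinset (fun i => if i ∈ A then univ else {0})

theorem mem_W {A : Finset ι} {c : ι → K × K} : c ∈ W K A ↔ ∀ i, i ∉ A → c i = 0 := by
  simp only [W, Fintype.mem_piFinset]
  constructor
  · intro h i hi
    simpa [hi] using h i
  · intro h i
    by_cases hi : i ∈ A
    · simp [hi]
    · simp [hi, h i hi]

theorem card_W (A : Finset ι) : (W K A).card = (Fintype.card K) ^ (2 * A.card) := by
  rw [W, Fintype.card_piFinset]
  have h : ∀ i : ι, (if i ∈ A then (univ : Finset (K × K)) else {0}).card
      = if i ∈ A then Fintype.card K ^ 2 else 1 := by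
    intro i
    by_cases hi : i ∈ A
    · simp [hi, pow_two]
    · simp [hi]
  rw [Finset.prod_congr rfl (fun i _ => h i), Finset.prod_ite_mem, Finset.univ_inter,
    Finset.prod_const, pow_mul]

/-- `K`-valued functions supported on `A`. -/
def WK (K : Type*) [Field K] [Fintype K] [DecidableEq K] (A : Finset ι) : Finset (ι → K) :=
  Fintype.piFinset (fun i => if i ∈ A then univ else {0})

theorem mem_WK {A : Finset ι} {c : ι → K} : c ∈ WK K A ↔ ∀ i, i ∉ A → c i = 0 := by
  simp only [WK, Fintype.mem_piFinset]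
  constructor
  · intro h i hi
    simpa [hi] using h i
  · intro h i
    by_cases hi : i ∈ A
    · simp [hi]
    · simp [hi, h i hi]

theorem card_WK (A : Finset ι) : (WK K A).card = (Fintype.card K) ^ A.card := by
  rw [WK, Fintype.card_piFinset]
  have h : ∀ i : ι, (if i ∈ A then (univ : Finset K) else {0}).card
      = if i ∈ A then Fintype.card K else 1 := by
    intro i
    by_cases hi : i ∈ A
    · simp [hi]
    · simp [hi]
  rw [Finset.prod_congr rfl (fun i _ => h i), Finset.prod_ite_mem, Finset.univ_inter,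
    Finset.prod_const]

/-- parameter space -/
abbrev Om (ι E : Type*) := Finset ι → (ι → E) × (ι → E) × E

/-- The code attached to `A`. -/
def code (t : ι → K) (ω : Om ι E) (A : Finset ι) : Finset (ι → K × K) :=
  (W K A).filter (fun c => val t c (ω A) = 0)

theorem mem_code {t : ι → K} {ω : Om ι E} {A : Finset ι} {c : ι → K × K} :
    c ∈ code t ω A ↔ (∀ i, i ∉ A → c i = 0) ∧ val t c (ω A) = 0 := by
  rw [code, mem_filter, mem_W]

/-- general swap -/
theorem sum_card_filter_swap {Ω T : Type*} [Fintype Ω] (S : Finset T) (P : Ω → T → Prop)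
    [∀ ω x, Decidable (P ω x)] :
    ∑ ω : Ω, (S.filter (fun x => P ω x)).card = ∑ x ∈ S, (univ.filter (fun ω => P ω x)).card := by
  simp only [Finset.card_filter]
  rw [Finset.sum_comm]

theorem sum_code (t : ι → K) (A : Finset ι) :
    (∑ ω : Om ι E, (code t ω A).card) * Fintype.card E
      = (Fintype.card K) ^ (2 * A.card) * Fintype.card (Om ι E) := by
  simp only [code]
  rw [sum_card_filter_swap, Finset.sum_mul, Finset.sum_congr rfl (fun c _ => count1 t A c),
    Finset.sum_const, card_W, smul_eq_mul]

/-- pairs of words of the code differing only on `R` -/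
def T0 (t : ι → K) (ω : Om ι E) (A R : Finset ι) : Finset ((ι → K × K) × (ι → K × K)) :=
  ((W K A) ×ˢ (W K R)).filter (fun p => R.piecewise p.2 p.1 ≠ p.1 ∧ val t p.1 (ω A) = 0 ∧
    val t (R.piecewise p.2 p.1) (ω A) = 0)

theorem sum_T0 (t : ι → K) (A R : Finset ι) :
    (∑ ω : Om ι E, (T0 t ω A R).card) * Fintype.card E ^ 2
      ≤ (Fintype.card K) ^ (2 * A.card + 2 * R.card) * Fintype.card (Om ι E) := by
  simp only [T0]
  rw [sum_card_filter_swap, Finset.sum_mul, pow_add, ← card_W (K := K) A, ← card_W (K := K) R,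
    ← Finset.card_product, ← smul_eq_mul, ← Finset.sum_const]
  refine Finset.sum_le_sum fun p _ => ?_
  by_cases h : R.piecewise p.2 p.1 ≠ p.1
  · rw [← count2 t A h]
    refine Nat.mul_le_mul_right _ (Finset.card_le_card ?_)
    intro ω hω
    simp only [mem_filter, mem_univ, true_and] at hω ⊢
    exact hω.2
  · have : (univ.filter (fun ω : Om ι E => R.piecewise p.2 p.1 ≠ p.1 ∧ val t p.1 (ω A) = 0 ∧
      val t (R.piecewise p.2 p.1) (ω A) = 0)) = ∅ := by
      apply Finset.filter_false_of_mem
      intro ω _ hω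
      exact h hω.1
    rw [this]; simp

/-- replace second letters on `R` -/
def repl (R : Finset ι) (g : ι → K) (c : ι → K × K) : ι → K × K :=
  fun i => ((c i).1, if i ∈ R then g i else (c i).2)

/-- pairs of words with the same first letters, differing only on `R` -/
def T1 (t : ι → K) (ω : Om ι E) (A R : Finset ι) : Finset ((ι → K × K) × (ι → K)) :=
  ((W K A) ×ˢ (WK K R)).filter (fun p => repl R p.2 p.1 ≠ p.1 ∧ val t p.1 (ω A) = 0 ∧
    val t (repl R p.2 p.1) (ω A) = 0)

theorem sum_T1 (t : ι → K) (A R : Finset ι) :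
    (∑ ω : Om ι E, (T1 t ω A R).card) * Fintype.card E ^ 2
      ≤ (Fintype.card K) ^ (2 * A.card + R.card) * Fintype.card (Om ι E) := by
  simp only [T1]
  rw [sum_card_filter_swap, Finset.sum_mul, pow_add, ← card_W (K := K) A, ← card_WK (K := K) R,
    ← Finset.card_product, ← smul_eq_mul, ← Finset.sum_const]
  refine Finset.sum_le_sum fun p _ => ?_
  by_cases h : repl R p.2 p.1 ≠ p.1
  · rw [← count2 t A h]
    refine Nat.mul_le_mul_right _ (Finset.card_le_card ?_)
    intro ω hω
    simp only [mem_filter, mem_univ, true_and] at hω ⊢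
    exact hω.2
  · have : (univ.filter (fun ω : Om ι E => repl R p.2 p.1 ≠ p.1 ∧ val t p.1 (ω A) = 0 ∧
      val t (repl R p.2 p.1) (ω A) = 0)) = ∅ := by
      apply Finset.filter_false_of_mem
      intro ω _ hω
      exact h hω.1
    rw [this]; simp

/-- static condition on quadruples -/
def stat (A B S : Finset ι) (c e' f' : ι → K × K) : Prop :=
  S.piecewise e' c ≠ c ∧
    (A = B → aa (S.piecewise e' c) ≠ aa c ∧ aa (S.piecewise c f') ≠ aa c)

instance (A B S : Finset ι) (c e' f' : ι → K × K) : Decidable (stat A B S c e' f') := by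
  unfold stat; infer_instance

/-- quadruples -/
def T2 (t : ι → K) (ω : Om ι E) (A B S : Finset ι) :
    Finset ((ι → K × K) × (ι → K × K) × (ι → K × K)) :=
  ((W K A) ×ˢ ((W K S) ×ˢ (W K (B \ S)))).filter (fun p =>
    stat A B S p.1 p.2.1 p.2.2 ∧
    val t p.1 (ω A) = 0 ∧ val t (S.piecewise p.2.1 p.1) (ω A) = 0 ∧
    val t (S.piecewise p.1 p.2.2) (ω B) = 0 ∧ val t (S.piecewise p.2.1 p.2.2) (ω B) = 0)

theorem count_quad (t : ι → K) (ht : Function.Injective t) (A B S : Finset ι)
    (c e' f' : ι → K × K) :
    (univ.filter (fun ω : Om ι E => stat A B S c e' f' ∧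
      val t c (ω A) = 0 ∧ val t (S.piecewise e' c) (ω A) = 0 ∧
      val t (S.piecewise c f') (ω B) = 0 ∧ val t (S.piecewise e' f') (ω B) = 0)).card
      * Fintype.card E ^ 4 ≤ Fintype.card (Om ι E) := by
  by_cases h : stat A B S c e' f'
  · by_cases hAB : A = B
    · subst hAB
      have h' := h.2 rfl
      rw [← count4 (E := E) t ht A (c := c) (e := S.piecewise e' c) (f := S.piecewise c f')
        (d := S.piecewise e' f') h'.1 h'.2 (by
          intro i
          by_cases hi : i ∈ S
          · right; simp [hi]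
          · left; simp [hi])]
      refine Nat.mul_le_mul_right _ (Finset.card_le_card ?_)
      intro ω hω
      simp only [mem_filter, mem_univ, true_and] at hω ⊢
      exact hω.2
    · have hdf : S.piecewise e' f' ≠ S.piecewise c f' := by
        intro hdf
        apply h.1
        funext i
        by_cases hi : i ∈ S
        · have := congrFun hdf i
          simpa [hi] using this
        · simp [hi]
      rw [← count4' (E := E) t hAB (c := c) (e := S.piecewise e' c) (f := S.piecewise c f')
        (d := S.piecewise e' f') h.1 hdf]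
      refine Nat.mul_le_mul_right _ (Finset.card_le_card ?_)
      intro ω hω
      simp only [mem_filter, mem_univ, true_and] at hω ⊢
      exact hω.2
  · have : (univ.filter (fun ω : Om ι E => stat A B S c e' f' ∧
      val t c (ω A) = 0 ∧ val t (S.piecewise e' c) (ω A) = 0 ∧
      val t (S.piecewise c f') (ω B) = 0 ∧ val t (S.piecewise e' f') (ω B) = 0)) = ∅ := by
      apply Finset.filter_false_of_mem
      intro ω _ hω
      exact h hω.1
    rw [this]; simp

theorem sum_T2 (t : ι → K) (ht : Function.Injective t) (A B S : Finset ι) :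
    (∑ ω : Om ι E, (T2 t ω A B S).card) * Fintype.card E ^ 4
      ≤ (Fintype.card K) ^ (2 * A.card + (2 * S.card + 2 * (B \ S).card)) *
        Fintype.card (Om ι E) := by
  simp only [T2]
  rw [sum_card_filter_swap, Finset.sum_mul, pow_add, pow_add, ← card_W (K := K) A,
    ← card_W (K := K) S, ← card_W (K := K) (B \ S),
    ← Finset.card_product, ← Finset.card_product, ← smul_eq_mul, ← Finset.sum_const]
  exact Finset.sum_le_sum fun p _ => count_quad t ht A B S p.1 p.2.1 p.2.2

open Classical in
/-- words with a partner differing only on `R` -/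
noncomputable def bad0 (t : ι → K) (ω : Om ι E) (A R : Finset ι) : Finset (ι → K × K) :=
  (W K A).filter (fun c => val t c (ω A) = 0 ∧
    ∃ e : ι → K × K, (∀ i, i ∉ R → e i = c i) ∧ e ≠ c ∧ val t e (ω A) = 0)

open Classical in
/-- words with a partner with the same first letters differing only on `R` -/
noncomputable def bad1 (t : ι → K) (ω : Om ι E) (A R : Finset ι) : Finset (ι → K × K) :=
  (W K A).filter (fun c => val t c (ω A) = 0 ∧
    ∃ e : ι → K × K, (∀ i, i ∉ R → e i = c i) ∧ aa e = aa c ∧ e ≠ c ∧ val t e (ω A) = 0)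

open Classical in
/-- words in a quadruple -/
noncomputable def bad2 (t : ι → K) (ω : Om ι E) (A B S : Finset ι) : Finset (ι → K × K) :=
  (W K A).filter (fun c => val t c (ω A) = 0 ∧
    ∃ e f d : ι → K × K, (∀ i, i ∉ S → e i = c i) ∧ (∀ i, i ∈ S → f i = c i) ∧
      (∀ i, i ∈ S → d i = e i) ∧ (∀ i, i ∉ S → d i = f i) ∧ (∀ i, i ∉ B → f i = 0) ∧
      e ≠ c ∧ (A = B → aa e ≠ aa c ∧ aa f ≠ aa c) ∧
      val t e (ω A) = 0 ∧ val t f (ω B) = 0 ∧ val t d (ω B) = 0)

theorem card_bad0 (t : ι → K) (ω : Om ι E) (A R : Finset ι) :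
    (bad0 t ω A R).card * (Fintype.card K - 1) ≤ (T0 t ω A R).card := by
  classical
  have hcard : ((univ : Finset K).erase 0).card = Fintype.card K - 1 := by
    rw [Finset.card_erase_of_mem (mem_univ _), Finset.card_univ]
  rw [← hcard, ← Finset.card_product]
  have hex : ∀ c : ι → K × K, ∃ e : ι → K × K, c ∈ bad0 t ω A R →
      (∀ i, i ∉ R → e i = c i) ∧ e ≠ c ∧ val t e (ω A) = 0 := by
    intro c
    by_cases hc : c ∈ bad0 t ω A R
    · obtain ⟨e, he⟩ := (mem_filter.mp hc).2.2
      exact ⟨e, fun _ => he⟩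
    · exact ⟨c, fun h => absurd h hc⟩
  choose pe hpe using hex
  refine Finset.card_le_card_of_injOn
    (fun p => (p.1, R.piecewise (line t p.2 p.1 (pe p.1)) 0)) ?_ ?_
  · rintro ⟨c, s⟩ hp
    rw [mem_coe, mem_product] at hp
    obtain ⟨hc, hs⟩ := hp
    have hs0 : s ≠ 0 := (mem_erase.mp hs).1
    obtain ⟨h1, h2, h3⟩ := hpe c hc
    have hcW : c ∈ W K A := (mem_filter.mp hc).1
    have hcv : val t c (ω A) = 0 := (mem_filter.mp hc).2.1
    have hline : R.piecewise (R.piecewise (line t s c (pe c)) 0) c = line t s c (pe c) := by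
      funext i
      by_cases hi : i ∈ R
      · simp [hi]
      · simp [hi, line_agree t s (h1 i hi).symm]
    rw [mem_coe, T0, mem_filter, mem_product]
    refine ⟨⟨hcW, ?_⟩, ?_, hcv, ?_⟩
    · rw [mem_W]
      intro i hi; simp [hi]
    · simp only
      rw [hline]
      intro hh
      apply hs0
      have : line t s c (pe c) = line t 0 c (pe c) := by rw [hh, line_zero]
      exact line_inj t h2 this
    · simp only
      rw [hline]
      exact val_line_zero t s hcv h3
  · rintro ⟨c, s⟩ hp ⟨c', s'⟩ hp' heq
    rw [mem_coe, mem_product] at hp hp'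
    simp only [Prod.mk.injEq] at heq
    obtain ⟨rfl, h4⟩ := heq
    obtain ⟨h1, h2, h3⟩ := hpe c hp.1
    have : line t s c (pe c) = line t s' c (pe c) := by
      funext i
      by_cases hi : i ∈ R
      · have := congrFun h4 i
        simpa [hi] using this
      · rw [line_agree t s (h1 i hi).symm, line_agree t s' (h1 i hi).symm]
    rw [line_inj t h2 this]

theorem card_bad1 (t : ι → K) (ω : Om ι E) (A R : Finset ι) :
    (bad1 t ω A R).card ≤ (T1 t ω A R).card := by
  classical
  have hex : ∀ c : ι → K × K, ∃ e : ι → K × K, c ∈ bad1 t ω A R →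
      (∀ i, i ∉ R → e i = c i) ∧ aa e = aa c ∧ e ≠ c ∧ val t e (ω A) = 0 := by
    intro c
    by_cases hc : c ∈ bad1 t ω A R
    · obtain ⟨e, he⟩ := (mem_filter.mp hc).2.2
      exact ⟨e, fun _ => he⟩
    · exact ⟨c, fun h => absurd h hc⟩
  choose pe hpe using hex
  refine Finset.card_le_card_of_injOn
    (fun c => (c, fun i => if i ∈ R then (pe c i).2 else 0)) ?_ ?_
  · intro c hc
    rw [mem_coe] at hc
    obtain ⟨h1, h2, h3, h4⟩ := hpe c hc
    have hcW : c ∈ W K A := (mem_filter.mp hc).1
    have hcv : val t c (ω A) = 0 := (mem_filter.mp hc).2.1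
    have hrepl : repl R (fun i => if i ∈ R then (pe c i).2 else 0) c = pe c := by
      funext i
      have ha : (pe c i).1 = (c i).1 := congrFun h2 i
      by_cases hi : i ∈ R
      · simp [repl, hi, ← ha]
      · simp [repl, hi, h1 i hi]
    rw [mem_coe, T1, mem_filter, mem_product]
    refine ⟨⟨hcW, ?_⟩, ?_, hcv, ?_⟩
    · rw [mem_WK]
      intro i hi; simp [hi]
    · simp only
      rw [hrepl]; exact h3
    · simp only
      rw [hrepl]; exact h4
  · intro c _ c' _ h
    exact (Prod.mk.inj h).1

theorem card_bad2 (t : ι → K) (ω : Om ι E) (A B S : Finset ι) :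
    (bad2 t ω A B S).card * (Fintype.card K - 1) ≤ (T2 t ω A B S).card := by
  classical
  have hcard : ((univ : Finset K).erase 0).card = Fintype.card K - 1 := by
    rw [Finset.card_erase_of_mem (mem_univ _), Finset.card_univ]
  rw [← hcard, ← Finset.card_product]
  have hex : ∀ c : ι → K × K, ∃ q : (ι → K × K) × (ι → K × K) × (ι → K × K),
      c ∈ bad2 t ω A B S →
      (∀ i, i ∉ S → q.1 i = c i) ∧ (∀ i, i ∈ S → q.2.1 i = c i) ∧
      (∀ i, i ∈ S → q.2.2 i = q.1 i) ∧ (∀ i, i ∉ S → q.2.2 i = q.2.1 i) ∧
      (∀ i, i ∉ B → q.2.1 i = 0) ∧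
      q.1 ≠ c ∧ (A = B → aa q.1 ≠ aa c ∧ aa q.2.1 ≠ aa c) ∧
      val t q.1 (ω A) = 0 ∧ val t q.2.1 (ω B) = 0 ∧ val t q.2.2 (ω B) = 0 := by
    intro c
    by_cases hc : c ∈ bad2 t ω A B S
    · obtain ⟨e, f, d, h⟩ := (mem_filter.mp hc).2.2
      exact ⟨(e, f, d), fun _ => h⟩
    · exact ⟨(c, c, c), fun h => absurd h hc⟩
  choose q hq using hex
  refine Finset.card_le_card_of_injOn
    (fun p => (p.1, S.piecewise (line t p.2 p.1 (q p.1).1) 0, S.piecewise 0 (q p.1).2.1)) ?_ ?_
  · rintro ⟨c, s⟩ hp
    rw [mem_coe, mem_product] at hp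
    obtain ⟨hc, hs⟩ := hp
    have hs0 : s ≠ 0 := (mem_erase.mp hs).1
    obtain ⟨h1, h2, h3, h4, h5, h6, h7, h8, h9, h10⟩ := hq c hc
    have hcW : c ∈ W K A := (mem_filter.mp hc).1
    have hcv : val t c (ω A) = 0 := (mem_filter.mp hc).2.1
    set e := (q c).1 with he
    set f := (q c).2.1 with hf
    set d := (q c).2.2 with hd
    have hE : S.piecewise (S.piecewise (line t s c e) 0) c = line t s c e := by
      funext i
      by_cases hi : i ∈ S
      · simp [hi]
      · simp [hi, line_agree t s (h1 i hi).symm]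
    have hF : S.piecewise c (S.piecewise 0 f) = f := by
      funext i
      by_cases hi : i ∈ S
      · simp [hi, h2 i hi]
      · simp [hi]
    have hx : aa e - aa c = aa d - aa f := by
      funext i
      simp only [Pi.sub_apply, aa]
      by_cases hi : i ∈ S
      · rw [h3 i hi, h2 i hi]
      · rw [h4 i hi, h1 i hi, sub_self, sub_self]
    have hD : S.piecewise (S.piecewise (line t s c e) 0) (S.piecewise 0 f) = line t s f d := by
      funext i
      by_cases hi : i ∈ S
      · simp only [hi, Finset.piecewise_eq_of_mem]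
        exact line_parallel t s hx (h2 i hi).symm (h3 i hi).symm
      · simp only [hi, not_false_eq_true, Finset.piecewise_eq_of_notMem]
        rw [line_agree t s (h4 i hi).symm]
    have hnec : line t s c e ≠ c := by
      intro hh
      apply hs0
      have : line t s c e = line t 0 c e := by rw [hh, line_zero]
      exact line_inj t h6 this
    rw [mem_coe, T2, mem_filter, mem_product, mem_product]
    refine ⟨⟨hcW, ?_, ?_⟩, ⟨?_, ?_⟩, hcv, ?_, ?_, ?_⟩
    · rw [mem_W]
      intro i hi; simp [hi]
    · rw [mem_W]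
      intro i hi
      simp only [mem_sdiff, not_and, not_not] at hi
      by_cases hiS : i ∈ S
      · simp [hiS]
      · have hiB : i ∉ B := fun h => hiS (hi h)
        simp only [hiS, not_false_eq_true, Finset.piecewise_eq_of_notMem]
        exact h5 i hiB
    · simp only
      rw [hE]; exact hnec
    · intro hAB
      simp only
      rw [hE, hF]
      refine ⟨?_, (h7 hAB).2⟩
      intro hh
      rw [aa_line] at hh
      have h11 : s • (aa e - aa c) = 0 := by simpa using hh
      rcases smul_eq_zero.mp h11 with h12 | h12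
      · exact hs0 h12
      · exact (h7 hAB).1 (sub_eq_zero.mp h12)
    · simp only
      rw [hE]
      exact val_line_zero t s hcv h8
    · simp only
      rw [hF]; exact h9
    · simp only
      rw [hD]
      exact val_line_zero t s h9 h10
  · rintro ⟨c, s⟩ hp ⟨c', s'⟩ hp' heq
    rw [mem_coe, mem_product] at hp hp'
    simp only [Prod.mk.injEq] at heq
    obtain ⟨rfl, h4, _⟩ := heq
    obtain ⟨h1, _, _, _, _, h6, _⟩ := hq c hp.1
    have : line t s c (q c).1 = line t s' c (q c).1 := by
      funext i
      by_cases hi : i ∈ S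
      · have := congrFun h4 i
        simpa [hi] using this
      · rw [line_agree t s (h1 i hi).symm, line_agree t s' (h1 i hi).symm]
    rw [line_inj t h6 this]

end Pool.Agent.helper27.UF
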