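import Pool.Agent.helper27.UF.Defs
import Pool.Agent.helper27.UF.Counts

/-!
# The blow-up theorem
-/

set_option linter.unusedSectionVars false
set_option linter.unusedDecidableInType false
set_option linter.unusedFintypeInType false

namespace Pool.Agent.helper27.UF

open Finset

variable {ι K : Type*} [Fintype ι] [DecidableEq ι] [Field K] [DecidableEq K] [Fintype K]
variable {E : Type*} [AddCommGroup E] [Module K E] [Fintype E] [DecidableEq E]

/-- the edge given by a word on `A` -/
def edge (A : Finset ι) (c : ι → K × K) : Finset (ι × (K × K)) := A.image (fun i => (i, c i))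

theorem mem_edge {A : Finset ι} {c : ι → K × K} {i : ι} {x : K × K} :
    (i, x) ∈ edge A c ↔ i ∈ A ∧ x = c i := by
  simp only [edge, mem_image, Prod.mk.injEq]
  constructor
  · rintro ⟨j, hj, rfl, rfl⟩; exact ⟨hj, rfl⟩
  · rintro ⟨h, rfl⟩; exact ⟨i, h, rfl, rfl⟩

theorem card_edge (A : Finset ι) (c : ι → K × K) : (edge A c).card = A.card := by
  rw [edge, Finset.card_image_of_injective]
  intro i j h
  exact (Prod.mk.inj h).1

theorem fst_edge {A B : Finset ι} {c d : ι → K × K} (h : edge A c = edge B d) : A = B := by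
  ext i
  constructor
  · intro hi
    have : (i, c i) ∈ edge B d := h ▸ mem_edge.mpr ⟨hi, rfl⟩
    exact (mem_edge.mp this).1
  · intro hi
    have : (i, d i) ∈ edge A c := h ▸ mem_edge.mpr ⟨hi, rfl⟩
    exact (mem_edge.mp this).1

theorem edge_inj {A : Finset ι} {c d : ι → K × K} (hc : ∀ i, i ∉ A → c i = 0)
    (hd : ∀ i, i ∉ A → d i = 0) (h : edge A c = edge A d) : c = d := by
  funext i
  by_cases hi : i ∈ A
  · have : (i, c i) ∈ edge A d := h ▸ mem_edge.mpr ⟨hi, rfl⟩
    exact (mem_edge.mp this).2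
  · rw [hc i hi, hd i hi]

/-- all bad words for `A` -/
noncomputable def badA (t : ι → K) (k : ℕ) (F : Finset (Finset ι)) (ω : Om ι E) (A : Finset ι) :
    Finset (ι → K × K) :=
  ((A.powerset.filter (fun R => R.card ≤ k)).biUnion (fun R => bad0 t ω A R)) ∪
  (((A.powerset.filter (fun R => R.card ≤ 2 * k - 1)).biUnion (fun R => bad1 t ω A R)) ∪
  (F.biUnion fun B => (A ∩ B).powerset.biUnion (fun S => bad2 t ω A B S)))

/-- good words -/
noncomputable def good (t : ι → K) (k : ℕ) (F : Finset (Finset ι)) (ω : Om ι E) (A : Finset ι) :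
    Finset (ι → K × K) := (code t ω A) \ (badA t k F ω A)

/-- the blow-up -/
noncomputable def HH (t : ι → K) (k : ℕ) (F : Finset (Finset ι)) (ω : Om ι E) :
    Finset (Finset (ι × (K × K))) :=
  F.biUnion (fun A => (good t k F ω A).image (edge A))

theorem core (t : ι → K) (k : ℕ) (F : Finset (Finset ι)) (hF : ∀ A ∈ F, A.card = 3 * k)
    (ω : Om ι E) {A B : Finset ι} (hA : A ∈ F) (hB : B ∈ F) {c e f d : ι → K × K}
    (hc : c ∈ good t k F ω A) (he : e ∈ good t k F ω A)
    (hd : d ∈ good t k F ω B) (hf : f ∈ good t k F ω B)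
    (hU : edge A c ∪ edge B d = edge A e ∪ edge B f) :
    (edge A c = edge A e ∧ edge B d = edge B f) ∨
    (edge A c = edge B f ∧ edge B d = edge A e) := by
  classical
  obtain ⟨hcc, hcb⟩ := mem_sdiff.mp hc
  obtain ⟨hec, -⟩ := mem_sdiff.mp he
  obtain ⟨hdc, -⟩ := mem_sdiff.mp hd
  obtain ⟨hfc, -⟩ := mem_sdiff.mp hf
  obtain ⟨hc0, hcv⟩ := mem_code.mp hcc
  obtain ⟨he0, hev⟩ := mem_code.mp hec
  obtain ⟨hd0, hdv⟩ := mem_code.mp hdc
  obtain ⟨hf0, hfv⟩ := mem_code.mp hfc
  have hcW : c ∈ W K A := mem_W.mpr hc0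
  have h1 : ∀ i ∈ A, c i = e i ∨ (i ∈ B ∧ c i = f i) := by
    intro i hi
    have : (i, c i) ∈ edge A e ∪ edge B f := by
      rw [← hU]; exact mem_union_left _ (mem_edge.mpr ⟨hi, rfl⟩)
    rcases mem_union.mp this with h | h
    · exact Or.inl (mem_edge.mp h).2
    · exact Or.inr (mem_edge.mp h)
  have h2 : ∀ i ∈ B, (i ∈ A ∧ d i = e i) ∨ d i = f i := by
    intro i hi
    have : (i, d i) ∈ edge A e ∪ edge B f := by
      rw [← hU]; exact mem_union_right _ (mem_edge.mpr ⟨hi, rfl⟩)
    rcases mem_union.mp this with h | h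
    · exact Or.inl (mem_edge.mp h)
    · exact Or.inr (mem_edge.mp h).2
  have h3 : ∀ i ∈ A, e i = c i ∨ (i ∈ B ∧ e i = d i) := by
    intro i hi
    have : (i, e i) ∈ edge A c ∪ edge B d := by
      rw [hU]; exact mem_union_left _ (mem_edge.mpr ⟨hi, rfl⟩)
    rcases mem_union.mp this with h | h
    · exact Or.inl (mem_edge.mp h).2
    · exact Or.inr (mem_edge.mp h)
  have h4 : ∀ i ∈ B, (i ∈ A ∧ f i = c i) ∨ f i = d i := by
    intro i hi
    have : (i, f i) ∈ edge A c ∪ edge B d := by
      rw [hU]; exact mem_union_right _ (mem_edge.mpr ⟨hi, rfl⟩)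
    rcases mem_union.mp this with h | h
    · exact Or.inl (mem_edge.mp h)
    · exact Or.inr (mem_edge.mp h).2
  set S : Finset ι := A.filter (fun i => c i ≠ e i) with hS
  have hSA : S ⊆ A := Finset.filter_subset _ _
  have hSn : ∀ i ∈ S, c i ≠ e i := fun i hi => (mem_filter.mp hi).2
  have hSB : ∀ i ∈ S, i ∈ B ∧ c i = f i := by
    intro i hi
    rcases h1 i (hSA hi) with h | h
    · exact absurd h (hSn i hi)
    · exact h
  have hSd : ∀ i ∈ S, d i = e i := by
    intro i hi
    rcases h3 i (hSA hi) with h | h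
    · exact absurd h.symm (hSn i hi)
    · exact h.2.symm
  have hoff : ∀ i, i ∉ S → e i = c i := by
    intro i hi
    by_cases hiA : i ∈ A
    · by_contra h
      exact hi (mem_filter.mpr ⟨hiA, fun h' => h h'.symm⟩)
    · rw [he0 i hiA, hc0 i hiA]
  have hoff2 : ∀ i, i ∉ S → d i = f i := by
    intro i hi
    by_cases hiB : i ∈ B
    · rcases h2 i hiB with h | h
      · rcases h4 i hiB with h' | h'
        · rw [h.2, h'.2, hoff i hi]
        · exact h'.symm
      · exact h
    · rw [hd0 i hiB, hf0 i hiB]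
  by_cases hec' : e = c
  · left
    have hdf : d = f := by
      funext i
      by_cases hi : i ∈ S
      · exact absurd (by rw [hec']) (hSn i hi)
      · exact hoff2 i hi
    rw [hec', hdf]
    exact ⟨rfl, rfl⟩
  · by_cases hAB : A = B
    · subst hAB
      by_cases hfc' : f = c
      · right
        have hde : d = e := by
          funext i
          by_cases hi : i ∈ S
          · exact hSd i hi
          · rw [hoff2 i hi, hfc', hoff i hi]
        rw [hfc', hde]
        exact ⟨rfl, rfl⟩
      · exfalso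
        have hoff3 : ∀ i, i ∉ A \ S → f i = c i := by
          intro i hi
          by_cases hiA : i ∈ A
          · have hiS : i ∈ S := by
              by_contra h
              exact hi (mem_sdiff.mpr ⟨hiA, h⟩)
            exact (hSB i hiS).2.symm
          · rw [hf0 i hiA, hc0 i hiA]
        have hcardA := hF A hA
        have hsum : (A \ S).card + S.card = A.card := Finset.card_sdiff_add_card_eq_card hSA
        by_cases hk1 : S.card ≤ k
        · apply hcb
          apply mem_union_left
          rw [mem_biUnion]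
          refine ⟨S, mem_filter.mpr ⟨mem_powerset.mpr hSA, hk1⟩, ?_⟩
          exact mem_filter.mpr ⟨hcW, hcv, e, hoff, hec', hev⟩
        · by_cases hk2 : (A \ S).card ≤ k
          · apply hcb
            apply mem_union_left
            rw [mem_biUnion]
            refine ⟨A \ S, mem_filter.mpr ⟨mem_powerset.mpr sdiff_subset, hk2⟩, ?_⟩
            exact mem_filter.mpr ⟨hcW, hcv, f, hoff3, hfc', hfv⟩
          · by_cases hx : aa e = aa c
            · apply hcb
              apply mem_union_right
              apply mem_union_left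
              rw [mem_biUnion]
              refine ⟨S, mem_filter.mpr ⟨mem_powerset.mpr hSA, by omega⟩, ?_⟩
              exact mem_filter.mpr ⟨hcW, hcv, e, hoff, hx, hec', hev⟩
            · by_cases hy : aa f = aa c
              · apply hcb
                apply mem_union_right
                apply mem_union_left
                rw [mem_biUnion]
                refine ⟨A \ S, mem_filter.mpr ⟨mem_powerset.mpr sdiff_subset, by omega⟩, ?_⟩
                exact mem_filter.mpr ⟨hcW, hcv, f, hoff3, hy, hfc', hfv⟩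
              · apply hcb
                apply mem_union_right
                apply mem_union_right
                rw [mem_biUnion]
                refine ⟨A, hA, ?_⟩
                rw [mem_biUnion]
                refine ⟨S, mem_powerset.mpr (by rw [inter_self]; exact hSA), ?_⟩
                exact mem_filter.mpr ⟨hcW, hcv, e, f, d, hoff, fun i hi => (hSB i hi).2.symm,
                  hSd, hoff2, hf0, hec', fun _ => ⟨hx, hy⟩, hev, hfv, hdv⟩
    · exfalso
      apply hcb
      apply mem_union_right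
      apply mem_union_right
      rw [mem_biUnion]
      refine ⟨B, hB, ?_⟩
      rw [mem_biUnion]
      refine ⟨S, mem_powerset.mpr (fun i hi => mem_inter.mpr ⟨hSA hi, (hSB i hi).1⟩), ?_⟩
      exact mem_filter.mpr ⟨hcW, hcv, e, f, d, hoff, fun i hi => (hSB i hi).2.symm,
        hSd, hoff2, hf0, hec', fun h => absurd h hAB, hev, hfv, hdv⟩

theorem pairFree_HH (t : ι → K) (k : ℕ) (F : Finset (Finset ι)) (hF : ∀ A ∈ F, A.card = 3 * k)
    (hP : PairFree F) (ω : Om ι E) : PairFree (HH t k F ω) := by
  intro E₁ h1 E₂ h2 E₃ h3 E₄ h4 hU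
  simp only [HH, mem_biUnion, mem_image] at h1 h2 h3 h4
  obtain ⟨A₁, hA1, c₁, hc1, rfl⟩ := h1
  obtain ⟨A₂, hA2, c₂, hc2, rfl⟩ := h2
  obtain ⟨A₃, hA3, c₃, hc3, rfl⟩ := h3
  obtain ⟨A₄, hA4, c₄, hc4, rfl⟩ := h4
  have hproj : A₁ ∪ A₂ = A₃ ∪ A₄ := by
    have hfst : ∀ (A : Finset ι) (c : ι → K × K), (edge A c).image Prod.fst = A := by
      intro A c
      ext i
      rw [mem_image]
      constructor
      · rintro ⟨⟨j, x⟩, hx, rfl⟩; exact (mem_edge.mp hx).1
      · intro hi; exact ⟨(i, c i), mem_edge.mpr ⟨hi, rfl⟩, rfl⟩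
    have := congrArg (fun s => s.image Prod.fst) hU
    simpa only [image_union, hfst] using this
  rcases hP A₁ hA1 A₂ hA2 A₃ hA3 A₄ hA4 hproj with ⟨rfl, rfl⟩ | ⟨rfl, rfl⟩
  · exact core t k F hF ω hA1 hA2 hc1 hc3 hc2 hc4 hU
  · rw [union_comm (edge A₂ c₃)] at hU
    rcases core t k F hF ω hA1 hA2 hc1 hc4 hc2 hc3 hU with h | h
    · right; exact h
    · left; exact h

theorem card_HH (t : ι → K) (k : ℕ) (F : Finset (Finset ι)) (ω : Om ι E) :
    (HH t k F ω).card = ∑ A ∈ F, (good t k F ω A).card := by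
  classical
  rw [HH, Finset.card_biUnion]
  · refine Finset.sum_congr rfl fun A _ => ?_
    apply Finset.card_image_of_injOn
    intro c hc d hd h
    have hc' := (mem_code.mp (mem_sdiff.mp (mem_coe.mp hc)).1).1
    have hd' := (mem_code.mp (mem_sdiff.mp (mem_coe.mp hd)).1).1
    exact edge_inj hc' hd' h
  · intro A _ B _ hAB
    change Disjoint ((good t k F ω A).image (edge A)) ((good t k F ω B).image (edge B))
    rw [Finset.disjoint_left]
    intro x hx hy
    simp only [mem_image] at hx hy
    obtain ⟨c, _, rfl⟩ := hx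
    obtain ⟨d, _, hd⟩ := hy
    exact hAB (fst_edge hd).symm

/-- total weight of conflicts -/
noncomputable def tot (t : ι → K) (k : ℕ) (F : Finset (Finset ι)) (ω : Om ι E) : ℕ :=
  ∑ A ∈ F, ((∑ R ∈ A.powerset.filter (fun R => R.card ≤ k), 2 * (T0 t ω A R).card) +
    ((∑ R ∈ A.powerset.filter (fun R => R.card ≤ 2 * k - 1),
      Fintype.card K * (T1 t ω A R).card) +
    (∑ B ∈ F, ∑ S ∈ (A ∩ B).powerset, 2 * (T2 t ω A B S).card)))

theorem two_le_card : 2 ≤ Fintype.card K := Fintype.one_lt_card

theorem card_badA (t : ι → K) (k : ℕ) (F : Finset (Finset ι)) (ω : Om ι E) (A : Finset ι) :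
    Fintype.card K * (badA t k F ω A).card ≤
    (∑ R ∈ A.powerset.filter (fun R => R.card ≤ k), 2 * (T0 t ω A R).card) +
    ((∑ R ∈ A.powerset.filter (fun R => R.card ≤ 2 * k - 1),
      Fintype.card K * (T1 t ω A R).card) +
    (∑ B ∈ F, ∑ S ∈ (A ∩ B).powerset, 2 * (T2 t ω A B S).card)) := by
  have hq : Fintype.card K ≤ 2 * (Fintype.card K - 1) := by
    have := two_le_card (K := K)
    omega
  have hb : (badA t k F ω A).card ≤
      (∑ R ∈ A.powerset.filter (fun R => R.card ≤ k), (bad0 t ω A R).card) +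
      ((∑ R ∈ A.powerset.filter (fun R => R.card ≤ 2 * k - 1), (bad1 t ω A R).card) +
      (∑ B ∈ F, ∑ S ∈ (A ∩ B).powerset, (bad2 t ω A B S).card)) := by
    rw [badA]
    refine (Finset.card_union_le _ _).trans (Nat.add_le_add Finset.card_biUnion_le ?_)
    refine (Finset.card_union_le _ _).trans (Nat.add_le_add Finset.card_biUnion_le ?_)
    refine Finset.card_biUnion_le.trans (Finset.sum_le_sum fun B _ => Finset.card_biUnion_le)
  refine (Nat.mul_le_mul_left _ hb).trans ?_
  rw [Nat.mul_add, Nat.mul_add, Finset.mul_sum, Finset.mul_sum, Finset.mul_sum]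
  refine Nat.add_le_add (Finset.sum_le_sum fun R _ => ?_)
    (Nat.add_le_add (Finset.sum_le_sum fun R _ => ?_) (Finset.sum_le_sum fun B _ => ?_))
  · calc Fintype.card K * (bad0 t ω A R).card
        ≤ (2 * (Fintype.card K - 1)) * (bad0 t ω A R).card := Nat.mul_le_mul_right _ hq
      _ = 2 * ((bad0 t ω A R).card * (Fintype.card K - 1)) := by ring
      _ ≤ 2 * (T0 t ω A R).card := Nat.mul_le_mul_left _ (card_bad0 t ω A R)
  · exact Nat.mul_le_mul_left _ (card_bad1 t ω A R)
  · rw [Finset.mul_sum]
    refine Finset.sum_le_sum fun S _ => ?_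
    calc Fintype.card K * (bad2 t ω A B S).card
        ≤ (2 * (Fintype.card K - 1)) * (bad2 t ω A B S).card := Nat.mul_le_mul_right _ hq
      _ = 2 * ((bad2 t ω A B S).card * (Fintype.card K - 1)) := by ring
      _ ≤ 2 * (T2 t ω A B S).card := Nat.mul_le_mul_left _ (card_bad2 t ω A B S)

theorem code_le (t : ι → K) (k : ℕ) (F : Finset (Finset ι)) (ω : Om ι E) :
    Fintype.card K * ∑ A ∈ F, (code t ω A).card ≤
      Fintype.card K * (HH t k F ω).card + tot t k F ω := by
  rw [card_HH, Finset.mul_sum, Finset.mul_sum, tot, ← Finset.sum_add_distrib]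
  refine Finset.sum_le_sum fun A _ => ?_
  have h1 : (code t ω A).card ≤ (good t k F ω A).card + (badA t k F ω A).card := by
    have h2 : code t ω A ⊆ good t k F ω A ∪ badA t k F ω A := by
      intro c hc
      by_cases h : c ∈ badA t k F ω A
      · exact mem_union_right _ h
      · exact mem_union_left _ (mem_sdiff.mpr ⟨hc, h⟩)
    exact (Finset.card_le_card h2).trans (Finset.card_union_le _ _)
  calc Fintype.card K * (code t ω A).card
      ≤ Fintype.card K * ((good t k F ω A).card + (badA t k F ω A).card) :=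
        Nat.mul_le_mul_left _ h1
    _ = Fintype.card K * (good t k F ω A).card + Fintype.card K * (badA t k F ω A).card := by ring
    _ ≤ _ := Nat.add_le_add_left (card_badA t k F ω A) _

end Pool.Agent.helper27.UF
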