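import Mathlib

/-!
# 2-union-free hypergraphs
-/

namespace Pool.Agent.helper27.UF

/-- A finite family `H` of finite sets is 2-union-free: two distinct subfamilies, each with
one or two members, have different unions. -/
def IsTwoUnionFree {V : Type*} [DecidableEq V] (H : Finset (Finset V)) : Prop :=
  ∀ 𝒜 ℬ : Finset (Finset V), 𝒜 ⊆ H → ℬ ⊆ H →
    1 ≤ 𝒜.card → 𝒜.card ≤ 2 → 1 ≤ ℬ.card → ℬ.card ≤ 2 → 𝒜 ≠ ℬ →
      𝒜.biUnion id ≠ ℬ.biUnion id

/-- The maximum number of edges of a 2-union-free `r`-graph on `n` vertices. -/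
noncomputable def U2 (n r : ℕ) : ℕ :=
  sSup {N : ℕ | ∃ H : Finset (Finset (Fin n)),
    (∀ e ∈ H, e.card = r) ∧ IsTwoUnionFree H ∧ H.card = N}

/-- The exponent `⌈4r/3⌉/2`. -/
noncomputable def alphaExp (r : ℕ) : ℝ := (⌈(4 * (r : ℝ)) / 3⌉ : ℝ) / 2

section basic

variable {V : Type*} [DecidableEq V]

/-- Pair form. -/
def PairFree (H : Finset (Finset V)) : Prop :=
  ∀ E₁ ∈ H, ∀ E₂ ∈ H, ∀ E₃ ∈ H, ∀ E₄ ∈ H, E₁ ∪ E₂ = E₃ ∪ E₄ →
    (E₁ = E₃ ∧ E₂ = E₄) ∨ (E₁ = E₄ ∧ E₂ = E₃)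

theorem pair_eq_pair {α : Type*} [DecidableEq α] {a b c d : α}
    (h : ({a, b} : Finset α) = {c, d}) : (a = c ∧ b = d) ∨ (a = d ∧ b = c) := by
  have h' : ({a, b} : Set α) = {c, d} := by
    have := congrArg (fun s : Finset α => (s : Set α)) h
    simpa using this
  exact Set.pair_eq_pair_iff.mp h'

theorem biUnion_pair (a b : Finset V) : ({a, b} : Finset (Finset V)).biUnion id = a ∪ b := by
  ext x; simp

theorem isTwoUnionFree_iff (H : Finset (Finset V)) : IsTwoUnionFree H ↔ PairFree H := by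
  constructor
  · intro h E₁ h1 E₂ h2 E₃ h3 E₄ h4 hE
    by_contra hcon
    have hne : ({E₁, E₂} : Finset (Finset V)) ≠ {E₃, E₄} := fun h' => hcon (pair_eq_pair h')
    refine h {E₁, E₂} {E₃, E₄} ?_ ?_ ?_ ?_ ?_ ?_ hne ?_
    · intro x hx; simp only [Finset.mem_insert, Finset.mem_singleton] at hx
      rcases hx with rfl | rfl <;> assumption
    · intro x hx; simp only [Finset.mem_insert, Finset.mem_singleton] at hx
      rcases hx with rfl | rfl <;> assumption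
    · exact Finset.card_pos.mpr ⟨E₁, by simp⟩
    · exact Finset.card_le_two
    · exact Finset.card_pos.mpr ⟨E₃, by simp⟩
    · exact Finset.card_le_two
    · rw [biUnion_pair, biUnion_pair, hE]
  · intro h 𝒜 ℬ hA hB hA1 hA2 hB1 hB2 hne hU
    have key : ∀ 𝒞 : Finset (Finset V), 1 ≤ 𝒞.card → 𝒞.card ≤ 2 → ∃ a b, 𝒞 = {a, b} := by
      intro 𝒞 h1 h2
      have h3 : 𝒞.card = 1 ∨ 𝒞.card = 2 := by omega
      rcases h3 with h3 | h3
      · obtain ⟨a, ha⟩ := Finset.card_eq_one.mp h3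
        exact ⟨a, a, by simp [ha]⟩
      · obtain ⟨a, b, _, hab⟩ := Finset.card_eq_two.mp h3
        exact ⟨a, b, hab⟩
    obtain ⟨a, b, rfl⟩ := key 𝒜 hA1 hA2
    obtain ⟨c, d, rfl⟩ := key ℬ hB1 hB2
    rw [biUnion_pair, biUnion_pair] at hU
    have ha : a ∈ H := hA (by simp)
    have hb : b ∈ H := hA (by simp)
    have hc : c ∈ H := hB (by simp)
    have hd : d ∈ H := hB (by simp)
    rcases h a ha b hb c hc d hd hU with ⟨rfl, rfl⟩ | ⟨rfl, rfl⟩
    · exact hne rfl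
    · exact hne (Finset.pair_comm _ _)

end basic

end Pool.Agent.helper27.UF
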