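import Mathlib

/-!
# Products of powers of 4 and 9 are eventually dense on the logarithmic scale
-/

namespace Pool.Agent.helper27.UF

open Real

theorem log_ne (u v : ℕ) (hu : 1 ≤ u) : (u : ℝ) * Real.log 4 - v * Real.log 9 ≠ 0 := by
  intro h
  have h1 : (u : ℝ) * Real.log 4 = v * Real.log 9 := sub_eq_zero.mp h
  have h2 : Real.log ((4 : ℝ) ^ u) = Real.log ((9 : ℝ) ^ v) := by
    rw [Real.log_pow, Real.log_pow]; exact h1
  have h3 : (4 : ℝ) ^ u = (9 : ℝ) ^ v :=
    Real.log_injOn_pos (Set.mem_Ioi.mpr (by positivity)) (Set.mem_Ioi.mpr (by positivity)) h2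
  have h4 : (4 : ℕ) ^ u = 9 ^ v := by exact_mod_cast h3
  have h5 : Even ((4 : ℕ) ^ u) := by
    rw [Nat.even_pow]; exact ⟨⟨2, rfl⟩, by omega⟩
  have h6 : Odd ((9 : ℕ) ^ v) := Odd.pow ⟨4, rfl⟩
  rw [h4] at h5
  exact (Nat.not_even_iff_odd.mpr h6) h5

theorem density (δ : ℝ) (hδ : 0 < δ) :
    ∃ K : ℕ, ∀ B : ℕ, ∃ x₀ : ℝ, ∀ x ≥ x₀, ∃ j ≤ K, ∃ b ≥ B,
      (j : ℝ) * Real.log 4 + b * Real.log 9 ≤ x ∧
      x ≤ (j : ℝ) * Real.log 4 + b * Real.log 9 + δ := by
  have hl4 : 1 < Real.log 4 := by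
    have : Real.log 4 = 2 * Real.log 2 := by
      rw [show (4 : ℝ) = 2 ^ 2 by norm_num, Real.log_pow]; norm_num
    rw [this]; linarith [Real.log_two_gt_d9]
  have hl9 : 0 < Real.log 9 := Real.log_pos (by norm_num)
  set δ₁ := min δ 1 with hδ₁
  have hδ₁pos : 0 < δ₁ := lt_min hδ one_pos
  obtain ⟨n, hn⟩ := exists_nat_gt (Real.log 9 / δ₁)
  have hn0 : 0 < n := by
    have : (0 : ℝ) < n := lt_trans (div_pos hl9 hδ₁pos) hn
    exact_mod_cast this
  obtain ⟨u, hu, -, hur⟩ := Real.exists_nat_abs_mul_sub_round_le (Real.log 4 / Real.log 9) hn0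
  set v : ℤ := round ((u : ℝ) * (Real.log 4 / Real.log 9)) with hv
  have habs : |(u : ℝ) * Real.log 4 - v * Real.log 9| ≤ δ₁ := by
    have h1 : (u : ℝ) * Real.log 4 - v * Real.log 9
        = ((u : ℝ) * (Real.log 4 / Real.log 9) - v) * Real.log 9 := by
      field_simp
    rw [h1, abs_mul, abs_of_pos hl9]
    calc |(u : ℝ) * (Real.log 4 / Real.log 9) - v| * Real.log 9
        ≤ (1 / ((n : ℝ) + 1)) * Real.log 9 := mul_le_mul_of_nonneg_right hur hl9.le
      _ ≤ δ₁ := by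
        rw [div_mul_eq_mul_div, one_mul, div_le_iff₀ (by positivity)]
        have h2 : Real.log 9 < n * δ₁ := by rwa [div_lt_iff₀ hδ₁pos] at hn
        nlinarith
  have hvpos : 0 < v := by
    by_contra h
    push Not at h
    have h1 : (v : ℝ) ≤ 0 := by exact_mod_cast h
    have h2 : (1 : ℝ) ≤ u := by exact_mod_cast hu
    have h3 := (abs_le.mp habs).2
    have h4 : δ₁ ≤ 1 := min_le_right _ _
    nlinarith
  obtain ⟨w, hw⟩ := Int.eq_ofNat_of_zero_le hvpos.le
  have hvw : (v : ℝ) = w := by rw [hw]; simp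
  rw [hvw] at habs
  have hne := log_ne u w hu
  have hδδ : δ₁ ≤ δ := min_le_left _ _
  rcases lt_or_gt_of_ne hne with hneg | hpos
  · -- negative case
    set θ := (w : ℝ) * Real.log 9 - u * Real.log 4 with hθ
    have hθpos : 0 < θ := by rw [hθ]; linarith
    have hθle : θ ≤ δ₁ := by
      have := (abs_le.mp habs).1
      rw [hθ]; linarith
    set J := ⌈Real.log 9 / θ⌉₊ with hJ
    refine ⟨u * J, fun B => ⟨((B : ℝ) + w * J + 1) * Real.log 9, fun x hx => ?_⟩⟩
    set b' := ⌊x / Real.log 9⌋₊ + 1 with hb'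
    have hx0 : 0 ≤ x := le_trans (by positivity) hx
    have hb'1 : ((b' : ℝ) - 1) * Real.log 9 ≤ x := by
      have : ((b' : ℝ) - 1) = (⌊x / Real.log 9⌋₊ : ℝ) := by rw [hb']; push_cast; ring
      rw [this, ← le_div_iff₀ hl9]
      exact Nat.floor_le (by positivity)
    have hb'2 : x < b' * Real.log 9 := by
      rw [← div_lt_iff₀ hl9, hb']
      push_cast
      exact Nat.lt_floor_add_one _
    have hb'3 : B + w * J + 1 ≤ b' := by
      have h1 : ((B : ℝ) + w * J + 1) ≤ x / Real.log 9 := by rwa [le_div_iff₀ hl9]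
      have h2 : B + w * J + 1 ≤ ⌊x / Real.log 9⌋₊ := by
        apply Nat.le_floor; push_cast; exact h1
      omega
    set ρ := b' * Real.log 9 - x with hρ
    have hρ0 : 0 < ρ := by rw [hρ]; linarith
    have hρ1 : ρ ≤ Real.log 9 := by rw [hρ]; nlinarith
    set j := ⌈ρ / θ⌉₊ with hj
    have hjJ : j ≤ J := by
      rw [hj, hJ]; exact Nat.ceil_mono (div_le_div_of_nonneg_right hρ1 hθpos.le)
    have hj1 : ρ ≤ j * θ := by
      rw [← div_le_iff₀ hθpos]; exact Nat.le_ceil _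
    have hj2 : (j : ℝ) * θ ≤ ρ + θ := by
      have := Nat.ceil_lt_add_one (a := ρ / θ) (by positivity)
      have h2 : (j : ℝ) ≤ ρ / θ + 1 := this.le
      calc (j : ℝ) * θ ≤ (ρ / θ + 1) * θ := mul_le_mul_of_nonneg_right h2 hθpos.le
        _ = ρ + θ := by field_simp
    have hwj : w * j ≤ w * J := Nat.mul_le_mul_left _ hjJ
    refine ⟨u * j, Nat.mul_le_mul_left _ hjJ, b' - w * j, by omega, ?_, ?_⟩
    · have h1 : ((b' - w * j : ℕ) : ℝ) = (b' : ℝ) - w * j := by
        rw [Nat.cast_sub (by omega)]; push_cast; ring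
      rw [h1]; push_cast
      have : (u : ℝ) * j * Real.log 4 + (b' - w * j) * Real.log 9
        = b' * Real.log 9 - j * θ := by rw [hθ]; ring
      rw [this]; rw [hρ] at hj1; linarith
    · have h1 : ((b' - w * j : ℕ) : ℝ) = (b' : ℝ) - w * j := by
        rw [Nat.cast_sub (by omega)]; push_cast; ring
      rw [h1]; push_cast
      have : (u : ℝ) * j * Real.log 4 + (b' - w * j) * Real.log 9
        = b' * Real.log 9 - j * θ := by rw [hθ]; ring
      rw [this]; rw [hρ] at hj2; linarith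
  · set θ := (u : ℝ) * Real.log 4 - w * Real.log 9 with hθ
    have hθpos : 0 < θ := hpos
    have hθle : θ ≤ δ₁ := (abs_le.mp habs).2
    set J := ⌈Real.log 9 / θ⌉₊ with hJ
    refine ⟨u * J, fun B => ⟨((B : ℝ) + w * J + 1) * Real.log 9, fun x hx => ?_⟩⟩
    set b' := ⌊x / Real.log 9⌋₊ with hb'
    have hx0 : 0 ≤ x := le_trans (by positivity) hx
    have hb'1 : (b' : ℝ) * Real.log 9 ≤ x := by
      rw [← le_div_iff₀ hl9]
      exact Nat.floor_le (by positivity)
    have hb'2 : x < (b' + 1) * Real.log 9 := by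
      rw [← div_lt_iff₀ hl9, hb']
      exact Nat.lt_floor_add_one _
    have hb'3 : B + w * J + 1 ≤ b' := by
      have h1 : ((B : ℝ) + w * J + 1) ≤ x / Real.log 9 := by rwa [le_div_iff₀ hl9]
      apply Nat.le_floor; push_cast; exact h1
    set ρ := x - b' * Real.log 9 with hρ
    have hρ0 : 0 ≤ ρ := by rw [hρ]; linarith
    have hρ1 : ρ ≤ Real.log 9 := by rw [hρ]; nlinarith
    set j := ⌊ρ / θ⌋₊ with hj
    have hjJ : j ≤ J := by
      rw [hj, hJ]
      exact (Nat.floor_le_ceil _).trans (Nat.ceil_mono (div_le_div_of_nonneg_right hρ1 hθpos.le))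
    have hj1 : (j : ℝ) * θ ≤ ρ := by
      rw [← le_div_iff₀ hθpos]; exact Nat.floor_le (by positivity)
    have hj2 : ρ ≤ j * θ + θ := by
      have := Nat.lt_floor_add_one (ρ / θ)
      have h2 : ρ / θ ≤ j + 1 := this.le
      calc ρ = (ρ / θ) * θ := by field_simp
        _ ≤ (j + 1) * θ := mul_le_mul_of_nonneg_right h2 hθpos.le
        _ = j * θ + θ := by ring
    have hwj : w * j ≤ w * J := Nat.mul_le_mul_left _ hjJ
    refine ⟨u * j, Nat.mul_le_mul_left _ hjJ, b' - w * j, by omega, ?_, ?_⟩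
    · have h1 : ((b' - w * j : ℕ) : ℝ) = (b' : ℝ) - w * j := by
        rw [Nat.cast_sub (by omega)]; push_cast; ring
      rw [h1]; push_cast
      have : (u : ℝ) * j * Real.log 4 + (b' - w * j) * Real.log 9
        = b' * Real.log 9 + j * θ := by rw [hθ]; ring
      rw [this]; rw [hρ] at hj1; linarith
    · have h1 : ((b' - w * j : ℕ) : ℝ) = (b' : ℝ) - w * j := by
        rw [Nat.cast_sub (by omega)]; push_cast; ring
      rw [h1]; push_cast
      have : (u : ℝ) * j * Real.log 4 + (b' - w * j) * Real.log 9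
        = b' * Real.log 9 + j * θ := by rw [hθ]; ring
      rw [this]; rw [hρ] at hj2; linarith

end Pool.Agent.helper27.UF
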