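import Pool.Agent.helper27.UF.Density

/-!
# Existence of the limit from the blow-up inequality
-/

namespace Pool.Agent.helper27.UF

open Filter Topology

section

variable (U : ℕ → ℕ) (d : ℕ)

/-- normalised -/
noncomputable def fr (n : ℕ) : ℝ := (U n : ℝ) / (n : ℝ) ^ d

variable {U d}

theorem step1 (hblow : ∀ m : ℕ, 1 ≤ m → ∃ C : ℝ, 0 ≤ C ∧ ∀ q : ℕ, m ≤ q →
      (∃ a, q = 2 ^ a ∨ q = 3 ^ a) →
      (U m : ℝ) * (q : ℝ) ^ (2 * d + 1) ≤ q * U (m * q ^ 2) + C * (q : ℝ) ^ (2 * d))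
    (m : ℕ) (hm : 1 ≤ m) (ε : ℝ) (hε : 0 < ε) :
    ∃ Q : ℕ, ∀ q : ℕ, Q ≤ q → (∃ a, q = 2 ^ a ∨ q = 3 ^ a) →
      fr U d m - ε ≤ fr U d (m * q ^ 2) := by
  obtain ⟨C, hC, h⟩ := hblow m hm
  have hm0 : (0 : ℝ) < m := by exact_mod_cast hm
  have hmd : (0 : ℝ) < (m : ℝ) ^ d := pow_pos hm0 d
  obtain ⟨Q, hQ⟩ := exists_nat_gt (C / ε)
  refine ⟨max (max m Q) 1, fun q hq ha => ?_⟩
  have hqm : m ≤ q := le_trans (le_trans (le_max_left _ _) (le_max_left _ _)) hq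
  have hqQ : Q ≤ q := le_trans (le_trans (le_max_right _ _) (le_max_left _ _)) hq
  have hq1 : 1 ≤ q := le_trans (le_max_right _ _) hq
  have hq0 : (0 : ℝ) < q := by exact_mod_cast hq1
  have h1 := h q hqm ha
  have hpow : ((m * q ^ 2 : ℕ) : ℝ) ^ d = (m : ℝ) ^ d * (q : ℝ) ^ (2 * d) := by
    push_cast
    rw [mul_pow, ← pow_mul]
  have hqd : (0 : ℝ) < (q : ℝ) ^ (2 * d) := pow_pos hq0 _
  rw [fr, fr, hpow]
  have h2 : (U m : ℝ) * (q : ℝ) ^ (2 * d) ≤ U (m * q ^ 2) + C / q * (q : ℝ) ^ (2 * d) := by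
    have h3 : (U m : ℝ) * (q : ℝ) ^ (2 * d) * q ≤
        (U (m * q ^ 2) + C / q * (q : ℝ) ^ (2 * d)) * q := by
      have h4 : (U (m * q ^ 2) + C / q * (q : ℝ) ^ (2 * d)) * q
          = q * U (m * q ^ 2) + C * (q : ℝ) ^ (2 * d) := by
        field_simp
      rw [h4, mul_assoc, ← pow_succ]
      exact h1
    exact le_of_mul_le_mul_right h3 hq0
  have h5 : C / q ≤ ε := by
    have h6 : C / ε < q := lt_of_lt_of_le hQ (by exact_mod_cast hqQ)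
    rw [div_lt_iff₀ hε] at h6
    rw [div_le_iff₀ hq0]
    linarith
  have h6 : C / q ≤ ε * (m : ℝ) ^ d := by
    have h7 : (1 : ℝ) ≤ (m : ℝ) ^ d := one_le_pow₀ (by exact_mod_cast hm)
    nlinarith
  rw [sub_le_iff_le_add]
  have h8 : (U m : ℝ) / (m : ℝ) ^ d = (U m : ℝ) * (q : ℝ) ^ (2 * d) /
      ((m : ℝ) ^ d * (q : ℝ) ^ (2 * d)) := by
    field_simp
  rw [h8, div_le_iff₀ (by positivity), add_mul, div_mul_cancel₀ _ (by positivity)]
  calc (U m : ℝ) * (q : ℝ) ^ (2 * d) ≤ U (m * q ^ 2) + C / q * (q : ℝ) ^ (2 * d) := h2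
    _ ≤ U (m * q ^ 2) + (ε * (m : ℝ) ^ d) * (q : ℝ) ^ (2 * d) := by
        gcongr
    _ = _ := by ring

theorem key (hmono : Monotone U) (D : ℝ) (hD0 : 0 ≤ D) (hD : ∀ n : ℕ, 1 ≤ n → fr U d n ≤ D)
    (hblow : ∀ m : ℕ, 1 ≤ m → ∃ C : ℝ, 0 ≤ C ∧ ∀ q : ℕ, m ≤ q →
      (∃ a, q = 2 ^ a ∨ q = 3 ^ a) →
      (U m : ℝ) * (q : ℝ) ^ (2 * d + 1) ≤ q * U (m * q ^ 2) + C * (q : ℝ) ^ (2 * d))
    (m : ℕ) (hm : 1 ≤ m) (ε : ℝ) (hε : 0 < ε) :
    ∃ n₀ : ℕ, ∀ n ≥ n₀, fr U d m - ε ≤ fr U d n := by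
  have hε3 : 0 < ε / 3 := by positivity
  obtain ⟨Q, hQ⟩ := step1 hblow m hm (ε / 3) hε3
  set δ := (ε / 3) / (D * d + 1) with hδ
  have hδpos : 0 < δ := by positivity
  obtain ⟨K, hK⟩ := density δ hδpos
  -- the first-level exponent is `Q`
  have hQpow : ∀ j, Q ≤ 2 ^ (Q + j) := fun j =>
    (Nat.lt_two_pow_self.le).trans (Nat.pow_le_pow_right (by norm_num) (by omega))
  set M : ℕ → ℕ := fun j => m * (2 ^ (Q + j)) ^ 2 with hM
  have hM1 : ∀ j, 1 ≤ M j := fun j => Nat.one_le_iff_ne_zero.mpr (by positivity)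
  have hMf : ∀ j, fr U d m - ε / 3 ≤ fr U d (M j) := fun j =>
    hQ (2 ^ (Q + j)) (hQpow j) ⟨Q + j, Or.inl rfl⟩
  have h2 : ∀ j, ∃ Q' : ℕ, ∀ q : ℕ, Q' ≤ q → (∃ a, q = 2 ^ a ∨ q = 3 ^ a) →
      fr U d (M j) - ε / 3 ≤ fr U d (M j * q ^ 2) := fun j =>
    step1 hblow (M j) (hM1 j) (ε / 3) hε3
  choose Q' hQ' using h2
  set B := ∑ j ∈ Finset.range (K + 1), Q' j with hB
  have hBj : ∀ j ≤ K, Q' j ≤ B := fun j hj =>
    Finset.single_le_sum (f := Q') (fun _ _ => Nat.zero_le _) (Finset.mem_range.mpr (by omega))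
  obtain ⟨x₀, hx₀⟩ := hK B
  have hm0 : (0 : ℝ) < m := by exact_mod_cast hm
  set c : ℝ := (m : ℝ) * 4 ^ Q with hc
  have hcpos : 0 < c := by positivity
  obtain ⟨n₀, hn₀⟩ := exists_nat_gt (c * Real.exp x₀)
  refine ⟨n₀, fun n hn => ?_⟩
  have hnc : c * Real.exp x₀ < n := lt_of_lt_of_le hn₀ (by exact_mod_cast hn)
  have hn0 : (0 : ℝ) < n := lt_trans (by positivity) hnc
  have hx : x₀ ≤ Real.log (n / c) := by
    rw [Real.le_log_iff_exp_le (by positivity), le_div_iff₀ hcpos]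
    linarith
  obtain ⟨j, hj, b, hb, h3, h4⟩ := hx₀ _ hx
  set N := M j * (3 ^ b) ^ 2 with hN
  have hNr : (N : ℝ) = c * (4 ^ j * 9 ^ b) := by
    rw [hN, hM, hc]
    push_cast
    rw [← pow_mul, ← pow_mul, pow_mul', pow_mul']
    norm_num
    rw [pow_add]
    ring
  have hN0 : (0 : ℝ) < N := by rw [hNr]; positivity
  have hlogN : Real.log ((N : ℝ) / c) = j * Real.log 4 + b * Real.log 9 := by
    rw [hNr, mul_div_assoc, mul_div_cancel₀ _ hcpos.ne', Real.log_mul (by positivity)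
      (by positivity), Real.log_pow, Real.log_pow]
  have hNn : N ≤ n := by
    have h5 : Real.log ((N : ℝ) / c) ≤ Real.log (n / c) := by rw [hlogN]; exact h3
    have h6 := (Real.log_le_log_iff (by positivity) (by positivity)).mp h5
    have h7 : (N : ℝ) ≤ n := by
      rwa [div_le_div_iff_of_pos_right hcpos] at h6
    exact_mod_cast h7
  have hratio : (n : ℝ) ≤ N * Real.exp δ := by
    have h5 : Real.log (n / c) ≤ Real.log ((N : ℝ) / c) + δ := by rw [hlogN]; exact h4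
    have h6 : Real.log (n / c) ≤ Real.log ((N : ℝ) / c * Real.exp δ) := by
      rw [Real.log_mul (by positivity) (Real.exp_pos _).ne', Real.log_exp]; exact h5
    have h7 := (Real.log_le_log_iff (by positivity) (by positivity)).mp h6
    rw [div_mul_eq_mul_div, div_le_div_iff_of_pos_right hcpos] at h7
    exact h7
  have hfN : fr U d m - 2 * (ε / 3) ≤ fr U d N := by
    have h5 : fr U d (M j) - ε / 3 ≤ fr U d N :=
      hQ' j (3 ^ b) ((hBj j hj).trans (hb.trans (Nat.lt_pow_self (by norm_num)).le))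
        ⟨b, Or.inr rfl⟩
    linarith [hMf j]
  have hN1 : 1 ≤ N := by
    have : 0 < N := by exact_mod_cast hN0
    omega
  -- compare n with N
  have hcomp : fr U d N - D * d * δ ≤ fr U d n := by
    have h5 : (U N : ℝ) ≤ U n := by exact_mod_cast hmono hNn
    have h6 : (U N : ℝ) / (n : ℝ) ^ d ≤ fr U d n := by
      rw [fr]; gcongr
    have h7 : fr U d N * Real.exp (-(d * δ)) ≤ (U N : ℝ) / (n : ℝ) ^ d := by
      rw [fr, le_div_iff₀ (by positivity)]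
      have h8 : (n : ℝ) ^ d ≤ (N : ℝ) ^ d * Real.exp (d * δ) := by
        calc (n : ℝ) ^ d ≤ (N * Real.exp δ) ^ d := pow_le_pow_left₀ hn0.le hratio d
          _ = (N : ℝ) ^ d * Real.exp (d * δ) := by
            rw [mul_pow, ← Real.exp_nat_mul]
      calc (U N : ℝ) / (N : ℝ) ^ d * Real.exp (-(d * δ)) * (n : ℝ) ^ d
          ≤ (U N : ℝ) / (N : ℝ) ^ d * Real.exp (-(d * δ)) * ((N : ℝ) ^ d * Real.exp (d * δ)) := by
            gcongr
        _ = (U N : ℝ) * (Real.exp (-(d * δ)) * Real.exp (d * δ)) := by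
            field_simp
        _ = U N := by rw [← Real.exp_add]; simp
    have h8 : 1 - d * δ ≤ Real.exp (-(d * δ)) := by
      have := Real.add_one_le_exp (-((d : ℝ) * δ))
      linarith
    have h9 : 0 ≤ fr U d N := by rw [fr]; positivity
    have h10 : fr U d N * (1 - d * δ) ≤ fr U d N * Real.exp (-(d * δ)) :=
      mul_le_mul_of_nonneg_left h8 h9
    have h11 : fr U d N * (d * δ) ≤ D * (d * δ) :=
      mul_le_mul_of_nonneg_right (hD N hN1) (by positivity)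
    nlinarith
  have hδ' : D * d * δ ≤ ε / 3 := by
    rw [hδ, ← mul_div_assoc, div_le_iff₀ (by positivity)]
    nlinarith
  linarith

theorem limit_exists (hmono : Monotone U) (D : ℝ) (hD0 : 0 ≤ D)
    (hD : ∀ n : ℕ, 1 ≤ n → fr U d n ≤ D)
    (hblow : ∀ m : ℕ, 1 ≤ m → ∃ C : ℝ, 0 ≤ C ∧ ∀ q : ℕ, m ≤ q →
      (∃ a, q = 2 ^ a ∨ q = 3 ^ a) →
      (U m : ℝ) * (q : ℝ) ^ (2 * d + 1) ≤ q * U (m * q ^ 2) + C * (q : ℝ) ^ (2 * d)) :
    ∃ L : ℝ, Tendsto (fun n => fr U d n) atTop (𝓝 L) ∧ ∀ n : ℕ, 1 ≤ n → fr U d n ≤ L := by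
  set S : Set ℝ := (fun n : ℕ => fr U d n) '' {n | 1 ≤ n} with hS
  have hSne : S.Nonempty := ⟨fr U d 1, 1, Set.mem_ofPred.mpr le_rfl, rfl⟩
  have hSb : BddAbove S := ⟨D, by rintro _ ⟨n, hn, rfl⟩; exact hD n hn⟩
  have hle : ∀ n : ℕ, 1 ≤ n → fr U d n ≤ sSup S := fun n hn => le_csSup hSb ⟨n, hn, rfl⟩
  refine ⟨sSup S, ?_, hle⟩
  rw [Metric.tendsto_atTop]
  intro ε hε
  obtain ⟨y, ⟨m, hm, rfl⟩, hy⟩ := exists_lt_of_lt_csSup hSne (show sSup S - ε / 2 < sSup S by linarith)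
  obtain ⟨n₀, hn₀⟩ := key hmono D hD0 hD hblow m hm (ε / 2) (by positivity)
  refine ⟨max n₀ 1, fun n hn => ?_⟩
  have h1 := hn₀ n (le_trans (le_max_left _ _) hn)
  have h2 := hle n (le_trans (le_max_right _ _) hn)
  rw [Real.dist_eq, abs_lt]
  simp only at hy
  constructor <;> linarith

end

end Pool.Agent.helper27.UF
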