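import Pool.Agent.helper27.UF.Average
import Pool.Agent.helper27.UF.Limit

/-!
# The extremal function: basic properties and the limit
-/

namespace Pool.Agent.helper27.UF

open Finset Filter Topology

section basics

/-- admissible sizes -/
def sizes (n r : ℕ) : Set ℕ := {N : ℕ | ∃ H : Finset (Finset (Fin n)),
    (∀ e ∈ H, e.card = r) ∧ IsTwoUnionFree H ∧ H.card = N}

theorem sizes_bdd (n r : ℕ) : BddAbove (sizes n r) :=
  ⟨Fintype.card (Finset (Fin n)), by
    rintro _ ⟨H, -, -, rfl⟩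
    exact Finset.card_le_univ H⟩

theorem pairFree_empty {V : Type*} [DecidableEq V] : PairFree (∅ : Finset (Finset V)) := by
  intro E₁ h; simp at h

theorem sizes_nonempty (n r : ℕ) : (sizes n r).Nonempty :=
  ⟨0, ∅, by simp, (isTwoUnionFree_iff _).mpr pairFree_empty, by simp⟩

theorem exists_extremal (n r : ℕ) : ∃ H : Finset (Finset (Fin n)),
    (∀ e ∈ H, e.card = r) ∧ PairFree H ∧ H.card = U2 n r := by
  obtain ⟨H, h1, h2, h3⟩ := Nat.sSup_mem (sizes_nonempty n r) (sizes_bdd n r)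
  exact ⟨H, h1, (isTwoUnionFree_iff _).mp h2, h3⟩

theorem le_U2_fin (n r : ℕ) (H : Finset (Finset (Fin n))) (h1 : ∀ e ∈ H, e.card = r)
    (h2 : PairFree H) : H.card ≤ U2 n r :=
  le_csSup (sizes_bdd n r) ⟨H, h1, (isTwoUnionFree_iff _).mpr h2, rfl⟩

theorem le_U2 {V : Type*} [DecidableEq V] [Fintype V] (n r : ℕ) (hV : Fintype.card V ≤ n)
    (H : Finset (Finset V)) (h1 : ∀ e ∈ H, e.card = r) (h2 : PairFree H) :
    H.card ≤ U2 n r := by
  classical
  obtain ⟨φ⟩ : Nonempty (V ↪ Fin n) := by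
    rw [Function.Embedding.nonempty_iff_card_le, Fintype.card_fin]; exact hV
  have hinj : Function.Injective (fun e : Finset V => e.map φ) := Finset.map_injective φ
  have := le_U2_fin n r (H.image (fun e => e.map φ)) (by
    intro e he
    obtain ⟨e', he', rfl⟩ := mem_image.mp he
    rw [Finset.card_map, h1 e' he']) (by
    intro E₁ hE1 E₂ hE2 E₃ hE3 E₄ hE4 hU
    obtain ⟨e₁, he1, rfl⟩ := mem_image.mp hE1
    obtain ⟨e₂, he2, rfl⟩ := mem_image.mp hE2
    obtain ⟨e₃, he3, rfl⟩ := mem_image.mp hE3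
    obtain ⟨e₄, he4, rfl⟩ := mem_image.mp hE4
    have hU' : e₁ ∪ e₂ = e₃ ∪ e₄ := by
      apply hinj
      simp only [Finset.map_union]
      exact hU
    rcases h2 e₁ he1 e₂ he2 e₃ he3 e₄ he4 hU' with ⟨rfl, rfl⟩ | ⟨rfl, rfl⟩
    · exact Or.inl ⟨rfl, rfl⟩
    · exact Or.inr ⟨rfl, rfl⟩)
  rwa [Finset.card_image_of_injective _ hinj] at this

theorem U2_mono (r : ℕ) : Monotone (fun n => U2 n r) := by
  intro n n' h
  obtain ⟨H, h1, h2, h3⟩ := exists_extremal n r
  have := le_U2 n' r (by rw [Fintype.card_fin]; exact h) H h1 h2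
  simp only
  rw [← h3]; exact this

theorem U2_pos (r : ℕ) : 1 ≤ U2 r r := by
  have := le_U2_fin r r {univ} (by
    intro e he
    rw [Finset.mem_singleton] at he
    rw [he, Finset.card_univ, Fintype.card_fin]) (by
    intro E₁ h1 E₂ h2 E₃ h3 E₄ h4 _
    rw [Finset.mem_singleton] at h1 h2 h3 h4
    left; rw [h1, h2, h3, h4]; exact ⟨rfl, rfl⟩)
  simpa using this

end basics

section upper

theorem card_small (n k : ℕ) :
    ((univ : Finset (Finset (Fin n))).filter (fun X => X.card ≤ k)).card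
      ≤ (k + 1) * (n + 1) ^ k := by
  have h1 : (univ : Finset (Finset (Fin n))).filter (fun X => X.card ≤ k) ⊆
      (range (k + 1)).biUnion (fun j => powersetCard j (univ : Finset (Fin n))) := by
    intro X hX
    rw [mem_biUnion]
    exact ⟨X.card, mem_range.mpr (Nat.lt_succ_of_le (mem_filter.mp hX).2),
      mem_powersetCard.mpr ⟨subset_univ _, rfl⟩⟩
  refine (Finset.card_le_card h1).trans (Finset.card_biUnion_le.trans ?_)
  calc ∑ j ∈ range (k + 1), (powersetCard j (univ : Finset (Fin n))).card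
      ≤ ∑ _j ∈ range (k + 1), (n + 1) ^ k := by
        refine Finset.sum_le_sum fun j hj => ?_
        rw [card_powersetCard, card_univ, Fintype.card_fin]
        calc n.choose j ≤ n ^ j := Nat.choose_le_pow n j
          _ ≤ (n + 1) ^ j := Nat.pow_le_pow_left (Nat.le_succ n) j
          _ ≤ (n + 1) ^ k := Nat.pow_le_pow_right (Nat.succ_pos n)
              (Nat.lt_succ_iff.mp (mem_range.mp hj))
    _ = (k + 1) * (n + 1) ^ k := by rw [sum_const, card_range, smul_eq_mul]

theorem upper (n k : ℕ) : U2 n (3 * k) ≤ (1 + (k + 1) ^ 2) * (n + 1) ^ (2 * k) := by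
  classical
  obtain ⟨H, h1, h2, h3⟩ := exists_extremal n (3 * k)
  rw [← h3]
  -- choose 2k-subsets
  have hT : ∀ A : Finset (Fin n), ∃ T : Finset (Fin n), A ∈ H → T ⊆ A ∧ T.card = 2 * k := by
    intro A
    by_cases hA : A ∈ H
    · obtain ⟨T, hT1, hT2⟩ := Finset.exists_subset_card_eq (s := A) (n := 2 * k)
        (by rw [h1 A hA]; omega)
      exact ⟨T, fun _ => ⟨hT1, hT2⟩⟩
    · exact ⟨∅, fun h => absurd h hA⟩
  choose T hT using hT
  -- representatives
  have hR : ∀ X : Finset (Fin n), ∃ B : Finset (Fin n), (∃ A ∈ H, T A = X) → B ∈ H ∧ T B = X := by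
    intro X
    by_cases hX : ∃ A ∈ H, T A = X
    · obtain ⟨A, hA, hAX⟩ := hX
      exact ⟨A, fun _ => ⟨hA, hAX⟩⟩
    · exact ⟨∅, fun h => absurd h hX⟩
  choose R hR using hR
  have hR' : ∀ A ∈ H, R (T A) ∈ H ∧ T (R (T A)) = T A := fun A hA => hR (T A) ⟨A, hA, rfl⟩
  set H1 := H.filter (fun A => R (T A) = A) with hH1
  set H2 := H.filter (fun A => ¬ R (T A) = A) with hH2
  have hsplit : H.card = H1.card + H2.card := by
    rw [hH1, hH2, Finset.card_filter_add_card_filter_not]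
  have hc1 : H1.card ≤ (n + 1) ^ (2 * k) := by
    calc H1.card ≤ (powersetCard (2 * k) (univ : Finset (Fin n))).card := by
          refine Finset.card_le_card_of_injOn T ?_ ?_
          · intro A hA
            have hA' : A ∈ H := (mem_filter.mp hA).1
            rw [mem_coe, mem_powersetCard]
            exact ⟨subset_univ _, (hT A hA').2⟩
          · intro A hA B hB hAB
            have hA' := (mem_filter.mp (mem_coe.mp hA)).2
            have hB' := (mem_filter.mp (mem_coe.mp hB)).2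
            rw [← hA', ← hB', hAB]
      _ = n.choose (2 * k) := by rw [card_powersetCard, card_univ, Fintype.card_fin]
      _ ≤ n ^ (2 * k) := Nat.choose_le_pow n _
      _ ≤ (n + 1) ^ (2 * k) := Nat.pow_le_pow_left (Nat.le_succ n) _
  have hc2 : H2.card ≤ ((k + 1) * (n + 1) ^ k) ^ 2 := by
    set Sm := (univ : Finset (Finset (Fin n))).filter (fun X => X.card ≤ k) with hSm
    have hsmall : ∀ A ∈ H, ∀ B ∈ H, T A = T B → (A \ B).card ≤ k := by
      intro A hA B hB hAB
      have h4 : T A ⊆ A ∩ B := subset_inter (hT A hA).1 (hAB ▸ (hT B hB).1)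
      have h5 := Finset.card_le_card h4
      rw [(hT A hA).2] at h5
      have h6 : (A \ B).card + (A ∩ B).card = A.card := Finset.card_sdiff_add_card_inter A B
      rw [h1 A hA] at h6
      omega
    have : H2.card ≤ (Sm ×ˢ Sm).card := by
      refine Finset.card_le_card_of_injOn (fun A => (A \ R (T A), R (T A) \ A)) ?_ ?_
      · intro A hA
        have hA' : A ∈ H := (mem_filter.mp hA).1
        obtain ⟨hB, hTB⟩ := hR' A hA'
        rw [mem_coe, mem_product, hSm, mem_filter, mem_filter]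
        exact ⟨⟨mem_univ _, hsmall A hA' _ hB hTB.symm⟩, ⟨mem_univ _, hsmall _ hB A hA' hTB⟩⟩
      · intro A hA A' hA' heq
        have hAH : A ∈ H := (mem_filter.mp (mem_coe.mp hA)).1
        have hAH' : A' ∈ H := (mem_filter.mp (mem_coe.mp hA')).1
        have hne : ¬ R (T A) = A := (mem_filter.mp (mem_coe.mp hA)).2
        obtain ⟨hB, hTB⟩ := hR' A hAH
        obtain ⟨hB', hTB'⟩ := hR' A' hAH'
        obtain ⟨e1, e2⟩ := Prod.mk.inj (show (A \ R (T A), R (T A) \ A) =
          (A' \ R (T A'), R (T A') \ A') from heq)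
        have hU : A ∪ R (T A') = R (T A) ∪ A' := by
          ext x
          have e1x : (x ∈ A \ R (T A)) ↔ (x ∈ A' \ R (T A')) := by rw [e1]
          have e2x : (x ∈ R (T A) \ A) ↔ (x ∈ R (T A') \ A') := by rw [e2]
          rw [Finset.mem_sdiff, Finset.mem_sdiff] at e1x e2x
          rw [Finset.mem_union, Finset.mem_union]
          tauto
        rcases h2 A hAH _ hB' _ hB A' hAH' hU with ⟨h, _⟩ | ⟨h, _⟩
        · exact absurd h.symm hne
        · exact h
    refine this.trans ?_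
    rw [card_product, ← pow_two]
    exact Nat.pow_le_pow_left (card_small n k) 2
  rw [hsplit]
  calc H1.card + H2.card ≤ (n + 1) ^ (2 * k) + ((k + 1) * (n + 1) ^ k) ^ 2 :=
        Nat.add_le_add hc1 hc2
    _ = _ := by ring

end upper

section blow

theorem blow_field (k : ℕ) (hk : 1 ≤ k) (m : ℕ) (F : Finset (Finset (Fin m)))
    (hF : ∀ A ∈ F, A.card = 3 * k) (hP : PairFree F) (K : Type) [Field K] [Fintype K]
    (hK : m ≤ Fintype.card K) :
    F.card * (Fintype.card K) ^ (4 * k + 1) ≤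
      Fintype.card K * U2 (m * (Fintype.card K) ^ 2) (3 * k) +
        (F.card * (2 ^ m * 2 + (2 ^ m + F.card * (2 ^ m * 2)))) * (Fintype.card K) ^ (4 * k) := by
  classical
  obtain ⟨t⟩ : Nonempty (Fin m ↪ K) := by
    rw [Function.Embedding.nonempty_iff_card_le, Fintype.card_fin]; exact hK
  obtain ⟨H, h1, h2, h3⟩ := blowup k hk F hF hP t t.injective
  rw [Fintype.card_fin] at h3
  refine h3.trans (Nat.add_le_add_right (Nat.mul_le_mul_left _ ?_) _)
  refine le_U2 _ _ ?_ H h1 h2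
  rw [Fintype.card_prod, Fintype.card_prod, Fintype.card_fin, pow_two]

theorem blow_U2 (k : ℕ) (hk : 1 ≤ k) (m : ℕ) :
    ∃ C : ℝ, 0 ≤ C ∧ ∀ q : ℕ, m ≤ q → (∃ a, q = 2 ^ a ∨ q = 3 ^ a) →
      (U2 m (3 * k) : ℝ) * (q : ℝ) ^ (2 * (2 * k) + 1) ≤
        q * U2 (m * q ^ 2) (3 * k) + C * (q : ℝ) ^ (2 * (2 * k)) := by
  obtain ⟨F, h1, h2, h3⟩ := exists_extremal m (3 * k)
  refine ⟨((F.card * (2 ^ m * 2 + (2 ^ m + F.card * (2 ^ m * 2))) : ℕ) : ℝ), by positivity,
    fun q hmq hq => ?_⟩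
  have hmain : U2 m (3 * k) * q ^ (4 * k + 1) ≤ q * U2 (m * q ^ 2) (3 * k) +
      (F.card * (2 ^ m * 2 + (2 ^ m + F.card * (2 ^ m * 2)))) * q ^ (4 * k) := by
    have key : ∀ (p : ℕ) (_ : Fact p.Prime) (a : ℕ), a ≠ 0 → q = p ^ a →
        U2 m (3 * k) * q ^ (4 * k + 1) ≤ q * U2 (m * q ^ 2) (3 * k) +
        (F.card * (2 ^ m * 2 + (2 ^ m + F.card * (2 ^ m * 2)))) * q ^ (4 * k) := by
      intro p hp a ha hqa
      have : Fintype (GaloisField p a) := Fintype.ofFinite _
      have hcard : Fintype.card (GaloisField p a) = q := by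
        rw [← Nat.card_eq_fintype_card, GaloisField.card p a ha, hqa]
      have := blow_field k hk m F h1 h2 (GaloisField p a) (by rw [hcard]; exact hmq)
      rw [hcard, h3] at this
      rw [h3]; exact this
    obtain ⟨a, ha⟩ := hq
    by_cases ha0 : a = 0
    · have hq1 : q = 1 := by
        rcases ha with h | h <;> simpa [ha0] using h
      rw [hq1]
      simp
    · rcases ha with h | h
      · exact key 2 ⟨Nat.prime_two⟩ a ha0 h
      · exact key 3 ⟨Nat.prime_three⟩ a ha0 h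
  have e1 : 2 * (2 * k) = 4 * k := by ring
  rw [e1]
  exact_mod_cast hmain

end blow

/-- The limit theorem with integer exponents. -/
theorem limit_nat (k : ℕ) (hk : 1 ≤ k) :
    ∃ L : ℝ, 0 < L ∧
      Tendsto (fun n : ℕ => (U2 n (3 * k) : ℝ) / (n : ℝ) ^ (2 * k)) atTop (𝓝 L) ∧
      ∀ n : ℕ, (U2 n (3 * k) : ℝ) ≤ L * (n : ℝ) ^ (2 * k) := by
  set D : ℝ := (1 + (k + 1) ^ 2) * 2 ^ (2 * k) with hD
  have hDn : ∀ n : ℕ, 1 ≤ n → fr (fun n => U2 n (3 * k)) (2 * k) n ≤ D := by
    intro n hn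
    have hn0 : (0 : ℝ) < n := by exact_mod_cast hn
    rw [fr, div_le_iff₀ (by positivity)]
    have h1 : (U2 n (3 * k) : ℝ) ≤ (1 + (k + 1) ^ 2) * ((n : ℝ) + 1) ^ (2 * k) := by
      exact_mod_cast upper n k
    have h2 : ((n : ℝ) + 1) ^ (2 * k) ≤ (2 * n) ^ (2 * k) := by
      have : (1 : ℝ) ≤ n := by exact_mod_cast hn
      gcongr
      linarith
    calc (U2 n (3 * k) : ℝ) ≤ (1 + (k + 1) ^ 2) * ((n : ℝ) + 1) ^ (2 * k) := h1
      _ ≤ (1 + (k + 1) ^ 2) * (2 * n) ^ (2 * k) := by gcongr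
      _ = D * (n : ℝ) ^ (2 * k) := by rw [hD, mul_pow]; ring
  obtain ⟨L, hL, hLn⟩ := limit_exists (U := fun n => U2 n (3 * k)) (d := 2 * k)
    (U2_mono (3 * k)) D (by positivity) hDn (fun m _ => blow_U2 k hk m)
  have hLpos : 0 < L := by
    have h1 := hLn (3 * k) (by omega)
    have h2 : (0 : ℝ) < fr (fun n => U2 n (3 * k)) (2 * k) (3 * k) := by
      rw [fr]
      have h3 : (0 : ℝ) < U2 (3 * k) (3 * k) := by
        exact_mod_cast U2_pos (3 * k)
      have h4 : (0 : ℝ) < ((3 * k : ℕ) : ℝ) := by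
        exact_mod_cast (by omega : 0 < 3 * k)
      positivity
    linarith
  refine ⟨L, hLpos, hL, fun n => ?_⟩
  rcases Nat.eq_zero_or_pos n with rfl | hn
  · have h1 : U2 0 (3 * k) = 0 := by
      obtain ⟨H, h1, -, h3⟩ := exists_extremal 0 (3 * k)
      rw [← h3, Finset.card_eq_zero, Finset.eq_empty_iff_forall_notMem]
      intro e he
      have h4 := h1 e he
      have h5 : e.card ≤ 0 := by simpa using Finset.card_le_univ e
      omega
    rw [h1]
    have : (0 : ℝ) ≤ L * ((0 : ℕ) : ℝ) ^ (2 * k) := by positivity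
    simpa using this
  · have hn0 : (0 : ℝ) < n := by exact_mod_cast hn
    have := hLn n hn
    rw [fr, div_le_iff₀ (by positivity)] at this
    exact this

theorem alphaExp_three (k : ℕ) : alphaExp (3 * k) = ((2 * k : ℕ) : ℝ) := by
  have h1 : (4 * ((3 * k : ℕ) : ℝ)) / 3 = ((4 * k : ℕ) : ℝ) := by
    push_cast; ring
  rw [alphaExp, h1, Int.ceil_natCast]
  push_cast; ring

/-- The limit exists for every `r` divisible by 3. -/
theorem limit_main (r : ℕ) (hr : 2 ≤ r) (h3 : 3 ∣ r) :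
    ∃ L : ℝ, 0 < L ∧
      Tendsto (fun n : ℕ => (U2 n r : ℝ) / (n : ℝ) ^ alphaExp r) atTop (𝓝 L) ∧
      ∀ n : ℕ, (U2 n r : ℝ) ≤ L * (n : ℝ) ^ alphaExp r := by
  obtain ⟨k, rfl⟩ := h3
  obtain ⟨L, hL, h1, h2⟩ := limit_nat k (by omega)
  refine ⟨L, hL, ?_, fun n => ?_⟩
  · simp only [alphaExp_three, Real.rpow_natCast]
    exact h1
  · simp only [alphaExp_three, Real.rpow_natCast]
    exact h2 n

end Pool.Agent.helper27.UF
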