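import Mathlib

/-!
# Bilinear two-level codes: words, lines, the Cauchy form
-/

set_option linter.unusedSectionVars false
set_option linter.unusedDecidableInType false
set_option linter.unusedFintypeInType false

namespace Pool.Agent.helper27.UF

open Finset

variable {ι K : Type*} [Fintype ι] [DecidableEq ι] [Field K] [DecidableEq K]

/-- The slope functional with Cauchy coefficients. The term `j = i` is zero. -/
def mu (t : ι → K) (a : ι → K) (i : ι) : K := ∑ j, a j / (t i - t j)

theorem mu_add (t a b : ι → K) (i : ι) : mu t (a + b) i = mu t a i + mu t b i := by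
  simp only [mu, Pi.add_apply, add_div, Finset.sum_add_distrib]

theorem mu_smul (t : ι → K) (s : K) (a : ι → K) (i : ι) : mu t (s • a) i = s * mu t a i := by
  simp only [mu, Pi.smul_apply, smul_eq_mul, mul_div_assoc, Finset.mul_sum]

theorem mu_sub (t a b : ι → K) (i : ι) : mu t (a - b) i = mu t a i - mu t b i := by
  simp only [mu, Pi.sub_apply, sub_div, Finset.sum_sub_distrib]

/-- First coordinates of a word. -/
def aa (c : ι → K × K) : ι → K := fun i => (c i).1

/-- Straightened second coordinates of a word. -/
def uu (t : ι → K) (c : ι → K × K) : ι → K := fun i => (c i).2 - (c i).1 * mu t (aa c) i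

/-- The line through two words. -/
def line (t : ι → K) (s : K) (c e : ι → K × K) : ι → K × K := fun i =>
  ((c i).1 + s * ((e i).1 - (c i).1),
   (c i).2 + s * ((e i).2 - (c i).2) +
     (s ^ 2 - s) * ((e i).1 - (c i).1) * mu t (aa e - aa c) i)

theorem aa_line (t : ι → K) (s : K) (c e : ι → K × K) :
    aa (line t s c e) = aa c + s • (aa e - aa c) := by
  funext i
  simp [aa, line]

theorem uu_line (t : ι → K) (s : K) (c e : ι → K × K) :
    uu t (line t s c e) = uu t c + s • (uu t e - uu t c) := by
  funext i
  have h1 : mu t (aa (line t s c e)) i = mu t (aa c) i + s * (mu t (aa e) i - mu t (aa c) i) := by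
    rw [aa_line, mu_add, mu_smul, mu_sub]
  simp only [uu, Pi.add_apply, Pi.smul_apply, Pi.sub_apply, smul_eq_mul]
  rw [h1]
  simp only [line, mu_sub]
  ring

theorem ext_word (t : ι → K) {c e : ι → K × K} (h1 : aa c = aa e) (h2 : uu t c = uu t e) :
    c = e := by
  funext i
  have ha : (c i).1 = (e i).1 := congrFun h1 i
  have hu : (c i).2 - (c i).1 * mu t (aa c) i = (e i).2 - (e i).1 * mu t (aa e) i := congrFun h2 i
  rw [h1, ha] at hu
  exact Prod.ext ha (by simpa using hu)

/-- If two words agree at a coordinate, so does the whole line. -/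
theorem line_agree (t : ι → K) (s : K) {c e : ι → K × K} {i : ι} (h : c i = e i) :
    line t s c e i = c i := by
  simp [line, h]

/-- Scaling lemma. -/
theorem line_parallel (t : ι → K) (s : K) {c e f d : ι → K × K}
    (hx : aa e - aa c = aa d - aa f) {i : ι} (h1 : c i = f i) (h2 : e i = d i) :
    line t s c e i = line t s f d i := by
  simp only [line, h1, h2, hx]

theorem line_inj (t : ι → K) {c e : ι → K × K} (hce : e ≠ c) {s s' : K}
    (h : line t s c e = line t s' c e) : s = s' := by
  by_contra hs
  apply hce
  have h1 : aa c + s • (aa e - aa c) = aa c + s' • (aa e - aa c) := by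
    rw [← aa_line t, ← aa_line t, h]
  have h2 : uu t c + s • (uu t e - uu t c) = uu t c + s' • (uu t e - uu t c) := by
    rw [← uu_line t, ← uu_line t, h]
  have hs' : s - s' ≠ 0 := sub_ne_zero.mpr hs
  apply ext_word t
  · have h3 : (s - s') • (aa e - aa c) = 0 := by
      rw [sub_smul, sub_eq_zero]; exact add_left_cancel h1
    rcases smul_eq_zero.mp h3 with h4 | h4
    · exact absurd h4 hs'
    · exact sub_eq_zero.mp h4
  · have h3 : (s - s') • (uu t e - uu t c) = 0 := by
      rw [sub_smul, sub_eq_zero]; exact add_left_cancel h2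
    rcases smul_eq_zero.mp h3 with h4 | h4
    · exact absurd h4 hs'
    · exact sub_eq_zero.mp h4

theorem line_zero (t : ι → K) (c e : ι → K × K) : line t 0 c e = c := by
  funext i; simp [line]

/-- Key nonvanishing lemma (half of it). -/
theorem mu_ne (t : ι → K) (ht : Function.Injective t) (x : ι → K) (hx : x ≠ 0) (Y : Finset ι)
    (hY : ∀ i ∈ Y, x i = 0)
    (hcard : (univ.filter (fun i => x i ≠ 0)).card ≤ Y.card) : ∃ i ∈ Y, mu t x i ≠ 0 := by
  classical
  by_contra hcon
  push Not at hcon
  set X := univ.filter (fun i => x i ≠ 0) with hX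
  -- polynomial
  set P : Polynomial K := ∑ j ∈ X, Polynomial.C (x j) *
    ∏ l ∈ X.erase j, (Polynomial.X - Polynomial.C (t l)) with hP
  have hXne : X.Nonempty := by
    obtain ⟨i, hi⟩ := Function.ne_iff.mp hx
    exact ⟨i, by simpa [hX] using hi⟩
  have hdeg : P.degree < (Y.card : ℕ) := by
    have h1 : P.degree < (X.card : ℕ) := by
      rw [hP]
      refine lt_of_le_of_lt (Polynomial.degree_sum_le _ _) ?_
      rw [Finset.sup_lt_iff (by
        exact WithBot.bot_lt_coe _)]
      intro j hj
      refine lt_of_le_of_lt (Polynomial.degree_mul_le _ _) ?_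
      have h2 : (∏ l ∈ X.erase j, (Polynomial.X - Polynomial.C (t l))).degree
          = (((X.erase j).card : ℕ) : WithBot ℕ) := by
        rw [Polynomial.degree_prod]
        simp
      rw [h2, Finset.card_erase_of_mem hj]
      refine lt_of_le_of_lt (add_le_add_left Polynomial.degree_C_le _) ?_
      rw [zero_add]
      have h3 : 0 < X.card := hXne.card_pos
      exact_mod_cast Nat.sub_lt h3 one_pos
    refine lt_of_lt_of_le h1 ?_
    exact_mod_cast hcard
  have heval : ∀ i, i ∉ X → P.eval (t i) = (∏ l ∈ X, (t i - t l)) * mu t x i := by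
    intro i hi
    have h1 : mu t x i = ∑ j ∈ X, x j / (t i - t j) := by
      rw [mu]
      symm
      apply Finset.sum_subset (Finset.subset_univ _)
      intro j _ hj
      have : x j = 0 := by
        by_contra h
        exact hj (by simp [hX, h])
      rw [this, zero_div]
    rw [h1, hP, Polynomial.eval_finsetSum, Finset.mul_sum]
    refine Finset.sum_congr rfl fun j hj => ?_
    have hij : t i - t j ≠ 0 := by
      rw [sub_ne_zero]
      intro h
      exact hi (by rw [ht h]; exact hj)
    rw [Polynomial.eval_mul, Polynomial.eval_C, Polynomial.eval_prod,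
      ← Finset.mul_prod_erase X _ hj]
    simp only [Polynomial.eval_sub, Polynomial.eval_X, Polynomial.eval_C]
    field_simp
  have hP0 : P = 0 := by
    refine Polynomial.eq_zero_of_degree_lt_of_eval_index_eq_zero Y (ht.injOn (s := (Y : Set ι))) hdeg ?_
    intro i hi
    rw [heval i (by simp [hX, hY i hi]), hcon i hi, mul_zero]
  obtain ⟨j, hj⟩ := hXne
  have h1 : P.eval (t j) = x j * ∏ l ∈ X.erase j, (t j - t l) := by
    rw [hP, Polynomial.eval_finsetSum, Finset.sum_eq_single j]
    · simp [Polynomial.eval_prod]
    · intro b _ hbj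
      rw [Polynomial.eval_mul, Polynomial.eval_prod]
      have : ∏ l ∈ X.erase b, Polynomial.eval (t j) (Polynomial.X - Polynomial.C (t l)) = 0 := by
        apply Finset.prod_eq_zero (i := j) (Finset.mem_erase.mpr ⟨hbj.symm, hj⟩)
        simp
      rw [this, mul_zero]
    · intro h; exact absurd hj h
  rw [hP0, Polynomial.eval_zero] at h1
  have h2 : x j ≠ 0 := by simpa [hX] using hj
  have h3 : ∏ l ∈ X.erase j, (t j - t l) ≠ 0 := by
    rw [Finset.prod_ne_zero_iff]
    intro l hl
    rw [sub_ne_zero]
    intro h
    exact (Finset.mem_erase.mp hl).1 (ht h).symm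
  exact mul_ne_zero h2 h3 h1.symm

/-- The bilinear form does not vanish at nonzero vectors with disjoint supports. -/
theorem bil_ne (t : ι → K) (ht : Function.Injective t) (x y : ι → K) (hx : x ≠ 0) (hy : y ≠ 0)
    (hdis : ∀ i, x i = 0 ∨ y i = 0) :
    ∃ i, x i * mu t y i + y i * mu t x i ≠ 0 := by
  classical
  have key : ∀ x y : ι → K, x ≠ 0 → y ≠ 0 → (∀ i, x i = 0 ∨ y i = 0) →
      (univ.filter (fun i => x i ≠ 0)).card ≤ (univ.filter (fun i => y i ≠ 0)).card →
      ∃ i, x i * mu t y i + y i * mu t x i ≠ 0 := by
    intro x y hx hy hdis hc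
    obtain ⟨i, hi, hmu⟩ := mu_ne t ht x hx (univ.filter (fun i => y i ≠ 0)) (by
      intro i hi
      rcases hdis i with h | h
      · exact h
      · exact absurd h (by simpa using hi)) hc
    have hyi : y i ≠ 0 := by simpa using hi
    have hxi : x i = 0 := (hdis i).resolve_right hyi
    exact ⟨i, by rw [hxi, zero_mul, zero_add]; exact mul_ne_zero hyi hmu⟩
  rcases le_total (univ.filter (fun i => x i ≠ 0)).card (univ.filter (fun i => y i ≠ 0)).card with
    h | h
  · exact key x y hx hy hdis h
  · obtain ⟨i, hi⟩ := key y x hy hx (fun i => (hdis i).symm) h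
    exact ⟨i, by rw [add_comm]; exact hi⟩

end Pool.Agent.helper27.UF
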