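import Pool.Agent.helper27.UF.Line

/-!
# Random affine codes: exact counts of parameters
-/

set_option linter.unusedSectionVars false
set_option linter.unusedDecidableInType false
set_option linter.unusedFintypeInType false

namespace Pool.Agent.helper27.UF

open Finset

variable {ι K : Type*} [Fintype ι] [DecidableEq ι] [Field K] [DecidableEq K]
variable {E : Type*} [AddCommGroup E] [Module K E]

/-- Value of the affine functional with parameters `p` at the word `c`. -/
def val (t : ι → K) (c : ι → K × K) (p : (ι → E) × (ι → E) × E) : E :=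
  ∑ i, uu t c i • p.1 i + ∑ i, aa c i • p.2.1 i + p.2.2

theorem val_add (t : ι → K) (c : ι → K × K) (p p' : (ι → E) × (ι → E) × E) :
    val t c (p + p') = val t c p + val t c p' := by
  simp only [val, Prod.fst_add, Prod.snd_add, Pi.add_apply, smul_add, Finset.sum_add_distrib]
  abel

theorem val_zero (t : ι → K) (c : ι → K × K) : val t c (0 : (ι → E) × (ι → E) × E) = 0 := by
  simp [val]

theorem val_line (t : ι → K) (s : K) (c e : ι → K × K) (p : (ι → E) × (ι → E) × E) :
    val t (line t s c e) p = val t c p + s • (val t e p - val t c p) := by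
  simp only [val, aa_line, uu_line, Pi.add_apply, Pi.smul_apply, Pi.sub_apply, smul_eq_mul,
    add_smul, sub_smul, mul_smul, Finset.sum_add_distrib, ← Finset.smul_sum,
    Finset.sum_sub_distrib]
  module

theorem val_line_zero (t : ι → K) (s : K) {c e : ι → K × K} {p : (ι → E) × (ι → E) × E}
    (h1 : val t c p = 0) (h2 : val t e p = 0) : val t (line t s c e) p = 0 := by
  rw [val_line, h1, h2, sub_self, smul_zero, add_zero]

theorem exists_par1 (t : ι → K) (c : ι → K × K) (τ : E) :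
    ∃ p : (ι → E) × (ι → E) × E, val t c p = τ :=
  ⟨(0, 0, τ), by simp [val]⟩

theorem exists_par2 (t : ι → K) {c e : ι → K × K} (h : e ≠ c) (τ₁ τ₂ : E) :
    ∃ p : (ι → E) × (ι → E) × E, val t c p = τ₁ ∧ val t e p = τ₂ := by
  classical
  by_cases ha : aa e = aa c
  · have hu : uu t e ≠ uu t c := fun hu => h (ext_word t ha hu)
    obtain ⟨i, hi⟩ := Function.ne_iff.mp hu
    have hi' : uu t e i - uu t c i ≠ 0 := sub_ne_zero.mpr hi
    set v : E := (uu t e i - uu t c i)⁻¹ • (τ₂ - τ₁) with hv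
    have hv' : (uu t e i - uu t c i) • v = τ₂ - τ₁ := by
      rw [hv, smul_smul, mul_inv_cancel₀ hi', one_smul]
    refine ⟨(Pi.single i v, 0, τ₁ - uu t c i • v), ?_, ?_⟩
    · simp [val, Pi.single_apply]
    · have h1 : val t e ((Pi.single i v, 0, τ₁ - uu t c i • v) : (ι → E) × (ι → E) × E)
          = uu t e i • v + (τ₁ - uu t c i • v) := by
        simp [val, Pi.single_apply]
      rw [h1]
      have h2 : uu t e i • v + (τ₁ - uu t c i • v) = (uu t e i - uu t c i) • v + τ₁ := by
        rw [sub_smul]; abel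
      rw [h2, hv']; abel
  · obtain ⟨i, hi⟩ := Function.ne_iff.mp ha
    have hi' : aa e i - aa c i ≠ 0 := sub_ne_zero.mpr hi
    set v : E := (aa e i - aa c i)⁻¹ • (τ₂ - τ₁) with hv
    have hv' : (aa e i - aa c i) • v = τ₂ - τ₁ := by
      rw [hv, smul_smul, mul_inv_cancel₀ hi', one_smul]
    refine ⟨(0, Pi.single i v, τ₁ - aa c i • v), ?_, ?_⟩
    · simp [val, Pi.single_apply]
    · have h1 : val t e ((0, Pi.single i v, τ₁ - aa c i • v) : (ι → E) × (ι → E) × E)
          = aa e i • v + (τ₁ - aa c i • v) := by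
        simp [val, Pi.single_apply]
      rw [h1]
      have h2 : aa e i • v + (τ₁ - aa c i • v) = (aa e i - aa c i) • v + τ₁ := by
        rw [sub_smul]; abel
      rw [h2, hv']; abel

theorem aa_quad {c e f d : ι → K × K}
    (hd : ∀ i, (e i = c i ∧ d i = f i) ∨ (f i = c i ∧ d i = e i)) :
    aa d = aa c + (aa e - aa c) + (aa f - aa c) := by
  funext i
  simp only [aa, Pi.add_apply, Pi.sub_apply]
  rcases hd i with ⟨h1, h2⟩ | ⟨h1, h2⟩
  · rw [h2, h1]; ring
  · rw [h2, h1]; ring

theorem uu_quad (t : ι → K) {c e f d : ι → K × K}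
    (hd : ∀ i, (e i = c i ∧ d i = f i) ∨ (f i = c i ∧ d i = e i)) (i : ι) :
    uu t d i = uu t e i + uu t f i - uu t c i -
      ((aa e - aa c) i * mu t (aa f - aa c) i + (aa f - aa c) i * mu t (aa e - aa c) i) := by
  have h1 : mu t (aa d) i = mu t (aa c) i + mu t (aa e - aa c) i + mu t (aa f - aa c) i := by
    rw [aa_quad hd, mu_add, mu_add]
  have h2 : (d i).1 = (e i).1 + (f i).1 - (c i).1 := by
    rcases hd i with ⟨h1, h2⟩ | ⟨h1, h2⟩
    · rw [h2, h1]; ring
    · rw [h2, h1]; ring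
  have h3 : (d i).2 = (e i).2 + (f i).2 - (c i).2 := by
    rcases hd i with ⟨h1, h2⟩ | ⟨h1, h2⟩
    · rw [h2, h1]; ring
    · rw [h2, h1]; ring
  simp only [uu]
  rw [h1, h2, h3, mu_sub, mu_sub]
  simp only [Pi.sub_apply, aa]
  ring

theorem exists_par4 (t : ι → K) (ht : Function.Injective t) {c e f d : ι → K × K}
    (hx : aa e ≠ aa c) (hy : aa f ≠ aa c)
    (hd : ∀ i, (e i = c i ∧ d i = f i) ∨ (f i = c i ∧ d i = e i)) (τ₁ τ₂ τ₃ τ₄ : E) :
    ∃ p : (ι → E) × (ι → E) × E,
      val t c p = τ₁ ∧ val t e p = τ₂ ∧ val t f p = τ₃ ∧ val t d p = τ₄ := by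
  classical
  set x := aa e - aa c with hxdef
  set y := aa f - aa c with hydef
  have hx0 : x ≠ 0 := sub_ne_zero.mpr hx
  have hy0 : y ≠ 0 := sub_ne_zero.mpr hy
  have hdis : ∀ i, x i = 0 ∨ y i = 0 := by
    intro i
    rcases hd i with ⟨h1, _⟩ | ⟨h1, _⟩
    · left; simp [hxdef, aa, h1]
    · right; simp [hydef, aa, h1]
  obtain ⟨i₀, hi₀⟩ := bil_ne t ht x y hx0 hy0 hdis
  set g : ι → K := fun i => x i * mu t y i + y i * mu t x i with hg
  have hi₀' : g i₀ ≠ 0 := hi₀
  obtain ⟨i₁, hi₁⟩ := Function.ne_iff.mp hx0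
  obtain ⟨i₂, hi₂⟩ := Function.ne_iff.mp hy0
  have hi₁' : x i₁ ≠ 0 := hi₁
  have hi₂' : y i₂ ≠ 0 := hi₂
  have hy1 : y i₁ = 0 := (hdis i₁).resolve_left hi₁'
  have hx2 : x i₂ = 0 := (hdis i₂).resolve_right hi₂'
  -- the three vectors
  set m : E := (g i₀)⁻¹ • (τ₂ + τ₃ - τ₁ - τ₄) with hm
  have hm' : g i₀ • m = τ₂ + τ₃ - τ₁ - τ₄ := by
    rw [hm, smul_smul, mul_inv_cancel₀ hi₀', one_smul]
  set v : E := (x i₁)⁻¹ • (τ₂ - τ₁ - (uu t e i₀ - uu t c i₀) • m) with hv
  have hv' : x i₁ • v = τ₂ - τ₁ - (uu t e i₀ - uu t c i₀) • m := by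
    rw [hv, smul_smul, mul_inv_cancel₀ hi₁', one_smul]
  set w : E := (y i₂)⁻¹ • (τ₃ - τ₁ - (uu t f i₀ - uu t c i₀) • m) with hw
  have hw' : y i₂ • w = τ₃ - τ₁ - (uu t f i₀ - uu t c i₀) • m := by
    rw [hw, smul_smul, mul_inv_cancel₀ hi₂', one_smul]
  set n : E := τ₁ - uu t c i₀ • m - aa c i₁ • v - aa c i₂ • w with hn
  have hval : ∀ z : ι → K × K, val t z ((Pi.single i₀ m, Pi.single i₁ v + Pi.single i₂ w, n) :
      (ι → E) × (ι → E) × E) = uu t z i₀ • m + (aa z i₁ • v + aa z i₂ • w) + n := by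
    intro z
    simp only [val, Pi.add_apply, smul_add, Finset.sum_add_distrib]
    congr 1
    congr 1
    · rw [Finset.sum_eq_single i₀]
      · simp
      · intro b _ hb; simp [hb]
      · intro h; exact absurd (mem_univ _) h
    · congr 1
      · rw [Finset.sum_eq_single i₁]
        · simp
        · intro b _ hb; simp [hb]
        · intro h; exact absurd (mem_univ _) h
      · rw [Finset.sum_eq_single i₂]
        · simp
        · intro b _ hb; simp [hb]
        · intro h; exact absurd (mem_univ _) h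
  have hae : ∀ i, aa e i = aa c i + x i := by intro i; simp [hxdef]
  have haf : ∀ i, aa f i = aa c i + y i := by intro i; simp [hydef]
  have had : ∀ i, aa d i = aa c i + x i + y i := by
    intro i; rw [aa_quad hd]; rfl
  have hc1 : val t c ((Pi.single i₀ m, Pi.single i₁ v + Pi.single i₂ w, n) :
      (ι → E) × (ι → E) × E) = τ₁ := by
    rw [hval, hn]; abel
  have he1 : val t e ((Pi.single i₀ m, Pi.single i₁ v + Pi.single i₂ w, n) :
      (ι → E) × (ι → E) × E) = τ₂ := by
    have : val t e ((Pi.single i₀ m, Pi.single i₁ v + Pi.single i₂ w, n) :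
      (ι → E) × (ι → E) × E) = val t c ((Pi.single i₀ m, Pi.single i₁ v + Pi.single i₂ w, n) :
      (ι → E) × (ι → E) × E) + ((uu t e i₀ - uu t c i₀) • m + x i₁ • v) := by
      rw [hval, hval, hae, hae, hx2, add_zero, add_smul, sub_smul]
      abel
    rw [this, hc1, hv']
    abel
  have hf1 : val t f ((Pi.single i₀ m, Pi.single i₁ v + Pi.single i₂ w, n) :
      (ι → E) × (ι → E) × E) = τ₃ := by
    have : val t f ((Pi.single i₀ m, Pi.single i₁ v + Pi.single i₂ w, n) :
      (ι → E) × (ι → E) × E) = val t c ((Pi.single i₀ m, Pi.single i₁ v + Pi.single i₂ w, n) :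
      (ι → E) × (ι → E) × E) + ((uu t f i₀ - uu t c i₀) • m + y i₂ • w) := by
      rw [hval, hval, haf, haf, hy1, add_zero, add_smul, sub_smul]
      abel
    rw [this, hc1, hw']
    abel
  refine ⟨_, hc1, he1, hf1, ?_⟩
  have : val t d ((Pi.single i₀ m, Pi.single i₁ v + Pi.single i₂ w, n) :
      (ι → E) × (ι → E) × E) = val t e ((Pi.single i₀ m, Pi.single i₁ v + Pi.single i₂ w, n) :
      (ι → E) × (ι → E) × E) + val t f ((Pi.single i₀ m, Pi.single i₁ v + Pi.single i₂ w, n) :
      (ι → E) × (ι → E) × E) - val t c ((Pi.single i₀ m, Pi.single i₁ v + Pi.single i₂ w, n) :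
      (ι → E) × (ι → E) × E) - g i₀ • m := by
    rw [hval, hval, hval, hval, uu_quad t hd i₀, had, had, hae, hae, haf, haf]
    simp only [hg]
    module
  rw [this, hc1, he1, hf1, hm']
  abel

section counting

theorem card_ker_mul {G H : Type*} [AddCommGroup G] [AddCommGroup H] [Fintype G] [Fintype H]
    [DecidableEq H] (f : G →+ H) (hf : Function.Surjective f) :
    (univ.filter (fun g => f g = 0)).card * Fintype.card H = Fintype.card G := by
  have h1 : Fintype.card G = ∑ h : H, (univ.filter (fun g => f g = h)).card := by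
    rw [← Finset.card_univ, Finset.card_eq_sum_card_fiberwise (f := f) (t := univ)]
    intro x _; exact mem_univ _
  have h2 : ∀ h : H, (univ.filter (fun g => f g = h)).card
      = (univ.filter (fun g => f g = 0)).card := by
    intro h
    exact AddMonoidHom.card_fiber_eq_of_mem_range f (hf h) (hf 0)
  rw [h1, Finset.sum_congr rfl (fun h _ => h2 h), Finset.sum_const, Finset.card_univ, smul_eq_mul,
    mul_comm]

variable [Fintype E] [DecidableEq E]

/-- evaluation homomorphism -/
def ev (t : ι → K) (A : Finset ι) (c : ι → K × K) :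
    (Finset ι → (ι → E) × (ι → E) × E) →+ E where
  toFun ω := val t c (ω A)
  map_zero' := val_zero t c
  map_add' ω ω' := val_add t c (ω A) (ω' A)

theorem count1 (t : ι → K) (A : Finset ι) (c : ι → K × K) :
    (univ.filter (fun ω : Finset ι → (ι → E) × (ι → E) × E => val t c (ω A) = 0)).card
      * Fintype.card E = Fintype.card (Finset ι → (ι → E) × (ι → E) × E) := by
  have h := card_ker_mul (ev (E := E) t A c) (by
    intro τ
    obtain ⟨p, hp⟩ := exists_par1 t c τ
    exact ⟨fun _ => p, hp⟩)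
  exact h

theorem count2 (t : ι → K) (A : Finset ι) {c e : ι → K × K} (h : e ≠ c) :
    (univ.filter (fun ω : Finset ι → (ι → E) × (ι → E) × E =>
      val t c (ω A) = 0 ∧ val t e (ω A) = 0)).card
      * Fintype.card E ^ 2 = Fintype.card (Finset ι → (ι → E) × (ι → E) × E) := by
  have h := card_ker_mul ((ev (E := E) t A c).prod (ev (E := E) t A e)) (by
    rintro ⟨τ₁, τ₂⟩
    obtain ⟨p, hp1, hp2⟩ := exists_par2 t h τ₁ τ₂
    exact ⟨fun _ => p, Prod.ext hp1 hp2⟩)
  rw [← h, Fintype.card_prod, pow_two]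
  congr 2
  ext ω
  simp [ev, AddMonoidHom.prod_apply, Prod.ext_iff]

theorem count4 (t : ι → K) (ht : Function.Injective t) (A : Finset ι) {c e f d : ι → K × K}
    (hx : aa e ≠ aa c) (hy : aa f ≠ aa c)
    (hd : ∀ i, (e i = c i ∧ d i = f i) ∨ (f i = c i ∧ d i = e i)) :
    (univ.filter (fun ω : Finset ι → (ι → E) × (ι → E) × E =>
      val t c (ω A) = 0 ∧ val t e (ω A) = 0 ∧ val t f (ω A) = 0 ∧ val t d (ω A) = 0)).card
      * Fintype.card E ^ 4 = Fintype.card (Finset ι → (ι → E) × (ι → E) × E) := by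
  have h := card_ker_mul ((ev (E := E) t A c).prod ((ev (E := E) t A e).prod
    ((ev (E := E) t A f).prod (ev (E := E) t A d)))) (by
    rintro ⟨τ₁, τ₂, τ₃, τ₄⟩
    obtain ⟨p, hp1, hp2, hp3, hp4⟩ := exists_par4 t ht hx hy hd τ₁ τ₂ τ₃ τ₄
    exact ⟨fun _ => p, Prod.ext hp1 (Prod.ext hp2 (Prod.ext hp3 hp4))⟩)
  rw [← h, Fintype.card_prod, Fintype.card_prod, Fintype.card_prod]
  have h4 : Fintype.card E ^ 4 = Fintype.card E * (Fintype.card E *
    (Fintype.card E * Fintype.card E)) := by ring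
  rw [h4]
  congr 2
  ext ω
  simp [ev, AddMonoidHom.prod_apply, Prod.ext_iff]

theorem count4' (t : ι → K) {A B : Finset ι} (hAB : A ≠ B) {c e f d : ι → K × K}
    (hec : e ≠ c) (hdf : d ≠ f) :
    (univ.filter (fun ω : Finset ι → (ι → E) × (ι → E) × E =>
      val t c (ω A) = 0 ∧ val t e (ω A) = 0 ∧ val t f (ω B) = 0 ∧ val t d (ω B) = 0)).card
      * Fintype.card E ^ 4 = Fintype.card (Finset ι → (ι → E) × (ι → E) × E) := by
  have h := card_ker_mul ((ev (E := E) t A c).prod ((ev (E := E) t A e).prod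
    ((ev (E := E) t B f).prod (ev (E := E) t B d)))) (by
    rintro ⟨τ₁, τ₂, τ₃, τ₄⟩
    obtain ⟨p, hp1, hp2⟩ := exists_par2 t hec τ₁ τ₂
    obtain ⟨p', hp3, hp4⟩ := exists_par2 t hdf τ₃ τ₄
    refine ⟨Function.update (fun _ => p) B p', Prod.ext ?_ (Prod.ext ?_ (Prod.ext ?_ ?_))⟩
    · simpa [ev, Function.update_of_ne hAB] using hp1
    · simpa [ev, Function.update_of_ne hAB] using hp2
    · simpa [ev] using hp3
    · simpa [ev] using hp4)
  rw [← h, Fintype.card_prod, Fintype.card_prod, Fintype.card_prod]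
  have h4 : Fintype.card E ^ 4 = Fintype.card E * (Fintype.card E *
    (Fintype.card E * Fintype.card E)) := by ring
  rw [h4]
  congr 2
  ext ω
  simp [ev, AddMonoidHom.prod_apply, Prod.ext_iff]

end counting

end Pool.Agent.helper27.UF
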